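import Pool.Agent.Lib.lead.CXSat
import Pool.Agent.Lib.helper21.PR

set_option autoImplicit false

namespace Pool.Agent.H.MP_9e35a6_lc

open Pool.Agent.Lib.CX Function

abbrev Tb := List (ℕ × ℕ × ℕ × ℕ)

def act (o : ℕ) (x : List Bool) : List Bool :=
  if o = 0 then false :: x else if o = 1 then true :: x else if o = 2 then x.tail else x

def jmp (I : ℕ × ℕ × ℕ × ℕ) (x : List Bool) : ℕ :=
  if (I.1 = 3 ∧ x.headD false = false) ∨ (I.1 = 4 ∧ x.length = 0) then I.2.2.2 else I.2.2.1

def fs (tb : Tb) (c : ℕ × List (List Bool)) : ℕ × List (List Bool) :=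
  (jmp (tb.getD c.1 (0, 0, 0, 0)) (c.2.getD (tb.getD c.1 (0, 0, 0, 0)).2.1 []),
    c.2.set (tb.getD c.1 (0, 0, 0, 0)).2.1
      (act (tb.getD c.1 (0, 0, 0, 0)).1 (c.2.getD (tb.getD c.1 (0, 0, 0, 0)).2.1 [])))

def Sim (c : Tb × ℕ × ℕ) (x : List Bool) : List Bool :=
  ((fs c.1)^[(x.length + 2) ^ c.2.2] (c.2.1, x :: List.replicate c.2.2 [])).2.headD []

lemma size_set (L : List (List Bool)) (i : ℕ) (v : List Bool) :
    size (L.set i v) + size (L.getD i []) ≤ size L + size v := by
  induction L generalizing i with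
  | nil => have := size_bits v; simp; omega
  | cons a L ih =>
    cases i with
    | zero => simp; omega
    | succ i => have := ih i; simp at this ⊢; omega

lemma fs_size (tb : Tb) (c : ℕ × List (List Bool)) :
    size (fs tb c).1 ≤ size tb + 20 ∧ size (fs tb c).2 ≤ size c.2 + 3 := by
  constructor
  · have h : size (tb.getD c.1 (0, 0, 0, 0)) ≤ size tb + 20 := by
      rw [List.getD_eq_getElem?_getD]
      cases h : tb[c.1]? with
      | none => simp only [Option.getD_none, size_pair]; have : size (0 : ℕ) = 2 := rfl; omega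
      | some x => have := size_mem (List.mem_of_getElem? h); simp only [Option.getD_some]; omega
    simp only [fs, jmp]
    generalize tb.getD c.1 (0, 0, 0, 0) = I at *
    obtain ⟨a, b, d, e⟩ := I
    simp only [size_pair] at h
    split_ifs <;> simp only <;> omega
  · have := size_set c.2 (tb.getD c.1 (0, 0, 0, 0)).2.1
      (act (tb.getD c.1 (0, 0, 0, 0)).1 (c.2.getD (tb.getD c.1 (0, 0, 0, 0)).2.1 []))
    have h2 : ∀ o x, size (act o x) ≤ size x + 3 := fun o x => by
      simp only [act, size_bits]; split_ifs <;> simp <;> omega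
    have := h2 (tb.getD c.1 (0, 0, 0, 0)).1 (c.2.getD (tb.getD c.1 (0, 0, 0, 0)).2.1 [])
    simp only [fs]; omega

lemma pt_sim (c : Tb × ℕ × ℕ) : PT (Sim c) := by
  have h : PT fun x : List Bool => (fs c.1)^[(x.length + 2) ^ c.2.2]
      (c.2.1, x :: List.replicate c.2.2 []) := by
    refine PT.iterate (F := fun _ : List Bool => fs c.1) (B := fun x => size c.1 + size c.2.1 + 21 +
      size (x :: List.replicate c.2.2 ([] : List Bool)) + 3 * (x.length + 2) ^ c.2.2)
      (by unfold fs jmp act; fun_prop) (by fun_prop) (by fun_prop) (by fun_prop) (by fun_prop) ?_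
    intro x k hk
    have : ∀ k, size ((fs c.1)^[k] (c.2.1, x :: List.replicate c.2.2 [])).1 ≤ size c.1 + size c.2.1 + 20 ∧
        size ((fs c.1)^[k] (c.2.1, x :: List.replicate c.2.2 [])).2 ≤
          size (x :: List.replicate c.2.2 ([] : List Bool)) + 3 * k := by
      intro k
      induction k with
      | zero => simp only [iterate_zero, id]; omega
      | succ k ih =>
        rw [iterate_succ_apply']
        have := fs_size c.1 ((fs c.1)^[k] (c.2.1, x :: List.replicate c.2.2 []))
        omega
    have := this k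
    rw [← Prod.mk.eta (p := (fs c.1)^[k] _), size_pair]
    omega
  exact h.snd.headD (PT.const _)

def opc : List Prog → ℕ × ℕ
  | .push i b :: _ => (b.toNat, i)
  | .pop i :: _ => (2, i)
  | .ite i _ _ :: _ => (3, i)
  | .loop i _ :: _ => (4, i)
  | _ => (5, 0)

open Classical in
noncomputable def tbl (p : Prog) : Tb := (labels p).map fun κ =>
  ((opc κ).1, (opc κ).2, (labels p).idxOf (nxt κ true), (labels p).idxOf (nxt κ false))

open Classical in
lemma fs_step (p : Prog) {κ : List Prog} (h : κ ∈ labels p) (L : List (List Bool))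
    (hL : (opc κ).2 < L.length) :
    (fs (tbl p) ((labels p).idxOf κ, L)).1 = (labels p).idxOf (step (κ, st L)).1 ∧
    st (fs (tbl p) ((labels p).idxOf κ, L)).2 = (step (κ, st L)).2 := by
  have h1 : (tbl p).getD ((labels p).idxOf κ) (0, 0, 0, 0) =
      ((opc κ).1, (opc κ).2, (labels p).idxOf (nxt κ true), (labels p).idxOf (nxt κ false)) := by
    have := List.idxOf_lt_length_of_mem h
    simp [tbl, this]
  simp only [fs, h1]
  rw [← update_st _ _ _ hL]
  have h2 : ∀ i, L.getD i [] = st L i := fun _ => rfl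
  simp only [h2]
  generalize st L = s
  rcases κ with _ | ⟨⟨i, b⟩ | i | _ | ⟨i, p, q⟩ | ⟨i, p⟩, k⟩
  · simp [step, opc, jmp, act, nxt]
  · cases b <;> simp [step, opc, jmp, act, nxt]
  · simp [step, opc, jmp, act, nxt]
  · simp [step, opc, jmp, act, nxt]
  · refine ⟨?_, by simp [step, opc, act]⟩
    rcases h : s i with _ | ⟨_ | _, _⟩ <;> simp [step, opc, jmp, nxt, h]
  · refine ⟨?_, by simp [step, opc, act]⟩
    rcases h : s i with _ | ⟨_ | _, _⟩ <;> simp [step, opc, jmp, nxt, h]

lemma poly_pow (q : Polynomial ℕ) : ∃ e, ∀ n, q.eval n ≤ (n + 2) ^ e := by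
  induction q using Polynomial.induction_on' with
  | add p q hp hq =>
    obtain ⟨a, ha⟩ := hp
    obtain ⟨b, hb⟩ := hq
    refine ⟨a + b + 1, fun n => ?_⟩
    have h1 : (n + 2) ^ a ≤ (n + 2) ^ (a + b) := Nat.pow_le_pow_right (by omega) (by omega)
    have h2 : (n + 2) ^ b ≤ (n + 2) ^ (a + b) := Nat.pow_le_pow_right (by omega) (by omega)
    have := ha n; have := hb n
    rw [Polynomial.eval_add, pow_succ]; nlinarith
  | monomial k c =>
    refine ⟨c + k, fun n => ?_⟩
    rw [Polynomial.eval_monomial, pow_add]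
    exact Nat.mul_le_mul (Nat.lt_pow_self (by omega)).le (Nat.pow_le_pow_left (by omega) _)

open Classical in
lemma sim_ex {α β : Type} [Enc α] [Enc β] {f : α → β} (hf : PT f) :
    ∃ c, ∀ a, Sim c (enc a) = enc (f a) := by
  obtain ⟨p, q, h⟩ := hf
  obtain ⟨e, he⟩ := poly_pow q
  set K := ((labels p).map fun κ => (opc κ).2).sum
  refine ⟨(tbl p, (labels p).idxOf [p], e + K), fun a => ?_⟩
  obtain ⟨n, m, h1, h2⟩ := h a
  have h3 := h2.run_le (T := ((enc a).length + 2) ^ (e + K))
    (h1.trans ((he _).trans (Nat.pow_le_pow_right (by omega) (by omega))))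
  have key : ∀ j, ((fs (tbl p))^[j] ((labels p).idxOf [p], enc a :: List.replicate (e + K) [])).1 =
      (labels p).idxOf (step^[j] ([p], io (enc a))).1 ∧
      st ((fs (tbl p))^[j] ((labels p).idxOf [p], enc a :: List.replicate (e + K) [])).2 =
        (step^[j] ([p], io (enc a))).2 ∧
      ((fs (tbl p))^[j] ((labels p).idxOf [p], enc a :: List.replicate (e + K) [])).2.length =
        e + K + 1 := by
    intro j
    induction j with
    | zero =>
      refine ⟨rfl, funext fun i => ?_, by simp⟩
      cases i <;> simp [st, io, List.getD_eq_getElem?_getD, List.getElem?_replicate]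
      split_ifs <;> rfl
    | succ j ih =>
      obtain ⟨a1, a2, a3⟩ := ih
      have hl := run_label p (io (enc a)) j
      rw [iterate_succ_apply', iterate_succ_apply', ← Prod.mk.eta (p := (fs _)^[j] _),
        ← Prod.mk.eta (p := step^[j] _), a1, ← a2]
      have := fs_step p hl _ ((Nat.lt_succ_of_le ((List.single_le_sum (fun _ _ => Nat.zero_le _)
        _ (List.mem_map_of_mem (f := fun κ => (opc κ).2) hl)).trans (Nat.le_add_left K e))).trans_eq a3.symm)
      exact ⟨this.1, this.2, by simp [fs, a3]⟩
  have h4 := congrFun (key (((enc a).length + 2) ^ (e + K))).2.1 0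
  rw [h3] at h4
  simp only [Sim]
  generalize ((fs (tbl p))^[_] _).2 = L at *
  cases L <;> simpa [st, io] using h4

lemma enc_list {α : Type} [Enc α] (l : List α) :
    enc l = l.flatMap (fun a => true :: enc a) ++ [false, false] := by
  induction l with
  | nil => rfl
  | cons a l ih =>
    have : enc (a :: l) = true :: (enc a ++ enc l) := rfl
    rw [this, ih]; simp

def av (n : ℕ) : List (List Bool) :=
  (fun L : List (List Bool) => L.flatMap fun l => [true :: l, false :: l])^[n] [[]]

lemma mem_av {n : ℕ} {l : List Bool} : l ∈ av n ↔ l.length = n := by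
  induction n generalizing l with
  | zero => simp [av]
  | succ n ih =>
    have : av (n + 1) = (av n).flatMap fun l => [true :: l, false :: l] := by
      simp only [av, iterate_succ_apply']
    rw [this]
    rcases l with _ | ⟨_ | _, l⟩ <;> simp [ih]

section
open Pool.Agent.Lib.helper21.PR
attribute [local irreducible] Primrec Computable

@[fun_prop] lemma pr_sim {α : Type} [Primcodable α] {c : α → Tb × ℕ × ℕ} {x : α → List Bool}
    (hc : Primrec c) (hx : Primrec x) : Primrec fun a => Sim (c a) (x a) := by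
  unfold Sim fs jmp act; fun_prop

@[fun_prop] lemma pr_av {α : Type} [Primcodable α] {n : α → ℕ} (hn : Primrec n) :
    Primrec fun a => av (n a) := by
  unfold av; fun_prop

@[fun_prop] lemma pr_enc1 {α : Type} [Primcodable α] {x : α → List Bool} (hx : Primrec x) :
    Primrec fun a => enc (x a) := by
  simp only [enc_bits]; fun_prop

@[fun_prop] lemma pr_enc2 {α : Type} [Primcodable α] {x : α → List (List Bool)} (hx : Primrec x) :
    Primrec fun a => enc (x a) := by
  simp only [enc_list (α := List Bool)]; fun_prop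

lemma pr_pt {β : Type} [Enc β] {f : List Bool × List Bool → β} (hf : PT f) :
    Primrec fun a => enc (f a) := by
  obtain ⟨c, hc⟩ := sim_ex hf
  have : ∀ a : List Bool × List Bool, enc a = true :: (enc a.1 ++ enc a.2) := fun _ => rfl
  simp only [← hc, this]; fun_prop

lemma pr_poly (q : Polynomial ℕ) : Primrec fun n => q.eval n := by
  induction q using Polynomial.induction_on' with
  | add p q hp hq => simp only [Polynomial.eval_add]; fun_prop
  | monomial k c => simp only [Polynomial.eval_monomial]; fun_prop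

lemma pr_np {A : List Bool → Prop} (h : InNP A) : Primrec fun x => cd (A x) := by
  obtain ⟨q, V, hV, h⟩ := h
  have h1 := pr_pt hV
  have h2 := pr_poly q
  have h3 : ∀ x, A x ↔ ∃ y ∈ av (q.eval (enc x).length), enc (V (x, y)) = [false, true] := fun x => by
    rw [h]
    refine exists_congr fun y => and_congr mem_av.symm ?_
    cases V (x, y) <;> simp [enc, Enc.tr, Tr.code]
  simp only [h3]
  refine p_exists (p_eq h1 (by fun_prop)) (pr_av (h2.comp (by fun_prop)))

def dc (c : ℕ) : Tb × ℕ × ℕ := (Encodable.decode c).getD ([], 0, 0)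

def Th (A : List Bool → Prop) (s : List Bool × List Bool → List Bool) (g : Tb × ℕ × ℕ)
    (n m : ℕ) : Prop :=
  ∀ c ≤ n, (∃ l ≤ m, ∃ x ∈ av l, ¬ (A x ↔ Sim (dc c) (s (List.replicate n false, x)) = [false, true]) ∧
      (s (List.replicate n false, x)).length ≤ m) ∧
    ∀ h ∈ av n, ∃ l ≤ m, ∃ x ∈ av l, ¬ (A x ↔ Sim g (true :: ((true :: (enc (av n) ++ enc h)) ++
      Sim (dc c) (enc x))) = [false, true]) ∧ (Sim (dc c) (enc x)).length ≤ m

lemma pr_th {A : List Bool → Prop} (hA : Primrec fun x => cd (A x))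
    {s : List Bool × List Bool → List Bool} (hs : Primrec s) (g : Tb × ℕ × ℕ) :
    PrimrecPred fun p : ℕ × ℕ => Th A s g p.1 p.2 := by
  have hA' : ∀ {α : Type} [Primcodable α] {f : α → List Bool}, Primrec f →
    Primrec fun a => cd (A (f a)) := fun h => hA.comp h
  unfold Th dc
  refine pred (p_forall_le (p_dand (p_exists_le (p_exists (p_dand (p_dnot (p_diff (hA' ?_) ?_)) ?_)
    ?_) ?_) (p_forall (p_exists_le (p_exists (p_dand (p_dnot (p_diff (hA' ?_) ?_)) ?_) ?_) ?_) ?_)) ?_)
  all_goals fun_prop

end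

lemma th_ex {A : List Bool → Prop} (hA : ¬ InP A) {β : Type} [Enc β]
    {s : List Bool × List Bool → β} (hs : PT s) (g : Tb × ℕ × ℕ) (n : ℕ) :
    ∃ m, Th A (fun a => enc (s a)) g n m := by
  have key : ∀ (f k : List Bool → List Bool), PT f → ∀ᶠ m in Filter.atTop, ∃ l ≤ m, ∃ x ∈ av l,
      ¬ (A x ↔ f x = [false, true]) ∧ (k x).length ≤ m := by
    intro f k hf
    obtain ⟨x, hx⟩ : ∃ x, ¬ (A x ↔ f x = [false, true]) := by
      by_contra! h
      exact hA ⟨fun x => decide (f x = [false, true]), by fun_prop, fun x => by simp [h x]⟩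
    filter_upwards [Filter.eventually_ge_atTop x.length, Filter.eventually_ge_atTop (k x).length]
      with m h1 h2
    exact ⟨_, h1, x, mem_av.2 rfl, hx, h2⟩
  refine Filter.Eventually.exists (f := Filter.atTop) ?_
  refine (Filter.eventually_all_finite (Set.finite_Iic n)).2 fun c _ => Filter.Eventually.and
    (key _ _ ((pt_sim _).comp (by fun_prop))) ?_
  refine (Filter.eventually_all_finite (av n).finite_toSet).2 fun h _ => key _ _
    ((pt_sim _).comp ?_)
  have := pt_sim (dc c)
  fun_prop

end Pool.Agent.H.MP_9e35a6_lc
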