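import Pool.Agent.Lib.helper21.While
import Pool.Agent.Lib.helper21.PR

set_option autoImplicit false

namespace Pool.Agent.H.MP_9e35a6_lc

open Function Pool.Agent.Lib.helper21.While

structure GM where
  ns : ℕ
  k : ℕ
  rg : ℕ → ℕ
  nx : ℕ → Bool → ℕ
  hd : ℕ → Bool → List ℕ
  fl : ℕ → Bool

structure GM.WF (M : GM) : Prop where
  ns : 0 < M.ns
  k : 3 ≤ M.k
  rg : ∀ s < M.ns, M.rg s < M.k
  nx : ∀ s < M.ns, ∀ b, M.nx s b < M.ns
  len : ∀ s b, (M.hd s b).length = M.k
  lt : ∀ s b, ∀ i ∈ M.hd s b, i < M.k + 3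
  zero : ∀ s, M.k + 2 ∉ M.hd s true
  time : ∀ s b, (M.hd s b).getD 0 0 = M.k

def nu (k j : ℕ) (v : List ℕ) (i : ℕ) : ℕ :=
  if i < k then v.getD i 0 else if i = k then v.getD 0 0 + 1 else if i = k + 1 then v.getD j 0 + 1
    else v.getD j 0 - 1

def GM.step (M : GM) (c : ℕ × List ℕ) : ℕ × List ℕ :=
  (M.nx c.1 (decide (c.2.getD (M.rg c.1) 0 = 0)),
    (M.hd c.1 (decide (c.2.getD (M.rg c.1) 0 = 0))).map (nu M.k (M.rg c.1) c.2))

def GM.i0 (M : GM) (e : ℕ) : List ℕ := e :: 0 :: e :: List.replicate (M.k - 3) 0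

def GM.cfg (M : GM) (e n : ℕ) : ℕ × List ℕ := M.step^[n] (0, M.i0 e)

def GM.D (M : GM) (e N : ℕ) : Prop := e ≤ N ∧ M.fl (M.cfg e (N - e)).1 = true

lemma GM.cfg_succ (M : GM) (e n : ℕ) : M.cfg e (n + 1) = M.step (M.cfg e n) :=
  iterate_succ_apply' _ _ _

lemma getD_map_lt {l : List ℕ} {i : ℕ} (f : ℕ → ℕ) (h : i < l.length) :
    (l.map f).getD i 0 = f (l.getD i 0) := by simp [h]

lemma GM.inv {M : GM} (h : M.WF) (e n : ℕ) : (M.cfg e n).1 < M.ns ∧ (M.cfg e n).2.length = M.k ∧
    (M.cfg e n).2.getD 0 0 = e + n ∧ ∀ i, (M.cfg e n).2.getD i 0 ≤ e + n := by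
  have hk := h.k
  induction n with
  | zero =>
    refine ⟨h.ns, by simp [GM.cfg, GM.i0]; omega, rfl, fun i => ?_⟩
    rcases i with _ | _ | _ | i <;> simp [GM.cfg, GM.i0, List.getElem?_replicate]
    split_ifs <;> simp
  | succ n ih =>
    obtain ⟨a, b, c, d⟩ := ih
    rw [M.cfg_succ]
    refine ⟨h.nx _ a _, by simp [GM.step, h.len], ?_, fun i => ?_⟩
    · simp only [GM.step]
      rw [getD_map_lt _ (by rw [h.len]; omega), h.time]
      simp [nu, ← add_assoc, ← c]
    · simp only [GM.step]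
      by_cases hi : i < M.k
      · rw [getD_map_lt _ (by rw [h.len]; omega)]
        unfold nu
        have := d (M.rg (M.cfg e n).1)
        split_ifs
        · exact (d _).trans (by omega)
        all_goals omega
      · rw [List.getD_eq_default _ _ (by simp [h.len]; omega)]; omega

abbrev AC := Bool × List Prog × ℕ × St

def s0 (e u : ℕ) : St := fun r => if r = 0 then e else if r = 1 then u else 0

def wrg : List Prog → ℕ
  | .inc r :: _ => r
  | .dec r :: _ => r
  | .loop r _ :: _ => r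
  | _ => 0

def wnx (P : Prog) : List Prog → Bool → List Prog
  | [], _ => [P]
  | .inc _ :: k, _ => k
  | .dec _ :: k, _ => k
  | .seq p q :: k, _ => p :: q :: k
  | .loop r p :: k, b => if b then k else p :: .loop r p :: k

def wst (e t : ℕ) : List Prog → St → St
  | [], _ => s0 e (t + 1)
  | .inc r :: _, s => update s r (s r + 1)
  | .dec r :: _, s => update s r (s r - 1)
  | _, s => s

def ast (P : Prog) (e : ℕ) (c : AC) : AC :=
  (if c.2.1 = [] then !c.1 else c.1, wnx P c.2.1 (decide (c.2.2.2 (wrg c.2.1) = 0)), c.2.2.1 + 1,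
    wst e c.2.2.1 c.2.1 c.2.2.2)

lemma run_ast (P : Prog) (e : ℕ) (b : Bool) {p : Prog} {s s' : St} (h : Run p s s') :
    ∀ κ t, (∀ r, s r ≤ t) → ∃ j, (ast P e)^[j] (b, p :: κ, t, s) = (b, κ, t + j, s') ∧
      (∀ r, s' r ≤ t + j) ∧ ∀ i ≤ j, ((ast P e)^[i] (b, p :: κ, t, s)).1 = b := by
  have two : ∀ {c c1 c2 : AC} {j1 j2 : ℕ}, c.1 = b → (ast P e)^[j1] (ast P e c) = c1 →
      (∀ i ≤ j1, ((ast P e)^[i] (ast P e c)).1 = b) → (ast P e)^[j2] c1 = c2 →
      (∀ i ≤ j2, ((ast P e)^[i] c1).1 = b) → (ast P e)^[j2 + j1 + 1] c = c2 ∧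
      ∀ i ≤ j2 + j1 + 1, ((ast P e)^[i] c).1 = b := by
    intro c c1 c2 j1 j2 h0 h1 h2 h3 h4
    refine ⟨by rw [iterate_succ_apply, iterate_add_apply, h1, h3], fun i hi => ?_⟩
    rcases i with _ | i
    · exact h0
    rw [iterate_succ_apply]
    rcases le_total i j1 with h | h
    · exact h2 i h
    · obtain ⟨d, rfl⟩ := Nat.exists_eq_add_of_le' h
      rw [iterate_add_apply, h1]; exact h4 d (by omega)
  have one : ∀ {c : AC}, c.1 = b → c.2.1 ≠ [] → ∀ i ≤ 1, ((ast P e)^[i] c).1 = b := by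
    intro c h0 h1 i hi
    rcases i with _ | _ | i
    · exact h0
    · simp [ast, h1, h0]
    · omega
  induction h with
  | inc r s =>
    intro κ t hs
    refine ⟨1, rfl, fun x => ?_, one rfl (by simp)⟩
    have := hs x; have := hs r
    rw [update_apply]; split_ifs <;> omega
  | dec r s =>
    intro κ t hs
    refine ⟨1, rfl, fun x => ?_, one rfl (by simp)⟩
    have := hs x; have := hs r
    rw [update_apply]; split_ifs <;> omega
  | @seq p q s t' u _ _ ih1 ih2 =>
    intro κ t hs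
    obtain ⟨j1, a1, a2, a3⟩ := ih1 (q :: κ) (t + 1) (fun r => (hs r).trans (by omega))
    obtain ⟨j2, b1, b2, b3⟩ := ih2 κ _ a2
    obtain ⟨c1, c2⟩ := two (c := (b, .seq p q :: κ, t, s)) rfl a1 a3 b1 b3
    exact ⟨_, by rw [c1]; congr 3; omega, fun r => (b2 r).trans (by omega), c2⟩
  | @stop r p s h0 =>
    intro κ t hs
    exact ⟨1, by simp [ast, wnx, wrg, wst, h0], fun r => (hs r).trans (by omega), one rfl (by simp)⟩
  | @go r p s t' u h0 _ _ ih1 ih2 =>
    intro κ t hs
    obtain ⟨j1, a1, a2, a3⟩ := ih1 (.loop r p :: κ) (t + 1) (fun r => (hs r).trans (by omega))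
    obtain ⟨j2, b1, b2, b3⟩ := ih2 κ _ a2
    have e1 : ast P e (b, .loop r p :: κ, t, s) = (b, p :: .loop r p :: κ, t + 1, s) := by
      simp [ast, wnx, wrg, wst, h0]
    obtain ⟨c1, c2⟩ := two (c := (b, .loop r p :: κ, t, s)) rfl (e1 ▸ a1) (e1 ▸ a3) b1 b3
    exact ⟨_, by rw [c1]; congr 3; omega, fun r => (b2 r).trans (by omega), c2⟩

def wsub : Prog → List Prog → List (List Prog)
  | .inc r, k => [.inc r :: k]
  | .dec r, k => [.dec r :: k]
  | .seq p q, k => (.seq p q :: k) :: (wsub p (q :: k) ++ wsub q k)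
  | .loop i p, k => (.loop i p :: k) :: wsub p (.loop i p :: k)

lemma mem_wsub (p : Prog) (k : List Prog) : p :: k ∈ wsub p k := by cases p <;> simp [wsub]

lemma wsub_cl (P p : Prog) : ∀ k, ∀ κ ∈ wsub p k, ∀ b, wnx P κ b ∈ wsub p k ∨ wnx P κ b = k := by
  induction p with
  | inc i => simp [wsub, wnx]
  | dec i => simp [wsub, wnx]
  | seq p q a b =>
    intro k κ h c
    simp only [wsub, List.mem_cons, List.mem_append] at h ⊢
    rcases h with rfl | h | h
    · simp [wnx, mem_wsub]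
    · rcases a _ _ h c with h | h
      · tauto
      · simp [h, mem_wsub]
    · have := b _ _ h c; tauto
  | loop i p a =>
    intro k κ h c
    simp only [wsub, List.mem_cons] at h ⊢
    rcases h with rfl | h
    · cases c <;> simp [wnx, mem_wsub]
    · have := a _ _ h c; tauto

def SL (P : Prog) : List (Bool × List Prog) := ([] :: wsub P []).flatMap fun κ => [(false, κ), (true, κ)]

lemma mem_SL {P : Prog} {x : Bool × List Prog} : x ∈ SL P ↔ x.2 ∈ [] :: wsub P [] := by
  obtain ⟨b, κ⟩ := x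
  cases b <;> simp [SL]

lemma SL_cl {P : Prog} {x : Bool × List Prog} (h : x ∈ SL P) (b c : Bool) :
    (c, wnx P x.2 b) ∈ SL P := by
  rw [mem_SL] at *
  rcases List.mem_cons.1 h with h | h
  · simp [h, wnx, mem_wsub]
  · have := wsub_cl P P [] _ h b; simp only [List.mem_cons]; tauto

def whd (K : ℕ) : List Prog → Bool → ℕ → ℕ
  | [], _, i => if i = 0 then 2 else if i = 1 then K + 3 else 1
  | .inc r :: _, _, i => if i = r then K + 4 else 3 + i
  | .dec r :: _, b, i => if i = r ∧ b = false then K + 5 else 3 + i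
  | _, _, i => 3 + i

def wK (P : Prog) : ℕ := ((SL P).map fun x => wrg x.2).sum + 1

def gm (P : Prog) : GM where
  ns := (SL P).length
  k := wK P + 3
  rg s := 3 + wrg ((SL P).getD s (false, [])).2
  nx s b := (SL P).idxOf (if ((SL P).getD s (false, [])).2 = [] then !((SL P).getD s (false, [])).1
    else ((SL P).getD s (false, [])).1, wnx P ((SL P).getD s (false, [])).2 b)
  hd s b := (wK P + 3) :: 1 :: 2 :: (List.range (wK P)).map (whd (wK P) ((SL P).getD s (false, [])).2 b)
  fl s := ((SL P).getD s (false, [])).1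

lemma wrg_lt {P : Prog} {x : Bool × List Prog} (h : x ∈ SL P) : wrg x.2 < wK P :=
  Nat.lt_succ_of_le (List.single_le_sum (fun _ _ => Nat.zero_le _) _
    (List.mem_map_of_mem (f := fun x => wrg x.2) h))

lemma gm_wf (P : Prog) : (gm P).WF := by
  have hm : ∀ s < (SL P).length, (SL P).getD s (false, []) ∈ SL P := fun s hs => by simp [hs]
  refine ⟨by simp [gm, SL], by simp [gm], fun s hs => ?_, fun s hs b =>
    List.idxOf_lt_length_of_mem (SL_cl (hm s hs) _ _), by simp [gm], fun s b i hi => ?_,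
    fun s hi => ?_, fun _ _ => rfl⟩
  · have := wrg_lt (hm s hs); simp only [gm]; omega
  · simp only [gm, List.mem_cons, List.mem_map, List.mem_range] at hi ⊢
    rcases hi with rfl | rfl | rfl | ⟨a, h, rfl⟩
    iterate 3 omega
    rcases ((SL P).getD s (false, [])).2 with _ | ⟨_ | _ | _ | _, _⟩ <;> simp only [whd] <;>
      (try split_ifs) <;> omega
  · simp only [gm, List.mem_cons, List.mem_map, List.mem_range] at hi
    rcases hi with h | h | h | ⟨a, h, h'⟩
    iterate 3 omega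
    revert h'
    rcases ((SL P).getD s (false, [])).2 with _ | ⟨_ | _ | _ | _, _⟩ <;> simp only [whd] <;>
      (try split_ifs) <;> simp_all <;> omega

lemma gm_sim (P : Prog) (e n : ℕ) : ∃ b κ t s, (ast P e)^[n] (false, [], e, fun _ => 0) = (b, κ, t, s) ∧
    (b, κ) ∈ SL P ∧ (gm P).cfg e n = ((SL P).idxOf (b, κ), t :: 0 :: e :: (List.range (wK P)).map s) := by
  induction n with
  | zero => exact ⟨_, _, _, _, rfl, by simp [mem_SL], by simp [GM.cfg, GM.i0, gm, SL]⟩
  | succ n ih =>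
    obtain ⟨b, κ, t, s, h1, h2, h3⟩ := ih
    refine ⟨_, _, _, _, by rw [iterate_succ_apply', h1]; rfl, SL_cl h2 _ _, ?_⟩
    have h4 : (SL P).getD ((SL P).idxOf (b, κ)) (false, []) = (b, κ) := by
      simp [List.idxOf_lt_length_of_mem h2]
    have h5 := wrg_lt h2
    have h6 : ∀ i < wK P, (t :: 0 :: e :: (List.range (wK P)).map s).getD (3 + i) 0 = s i := by
      intro i hi; simp [add_comm 3 i, hi]
    rw [GM.cfg_succ, h3]
    simp only [GM.step, gm, h4, h6 _ h5, List.map_cons, List.map_map]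
    refine Prod.ext rfl ?_
    simp only [ast, List.cons.injEq]
    refine ⟨by simp [nu], by simp [nu], by simp [nu], List.map_congr_left fun i hi => ?_⟩
    have hi := List.mem_range.1 hi
    have h7 : nu (wK P + 3) (3 + wrg κ) (t :: 0 :: e :: (List.range (wK P)).map s) (3 + i) = s i := by
      rw [nu, if_pos (by omega), h6 i hi]
    simp only [comp]
    rcases κ with _ | ⟨r | r | _ | _, κ⟩ <;> simp only [whd, wst, wrg] at h5 h7 ⊢
    · simp only [s0]; split_ifs <;> simp [nu]
    · rw [update_apply]; split_ifs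
      · rw [nu, if_neg (by omega), if_neg (by omega), if_pos rfl, h6 _ h5]
      · exact h7
    · rw [update_apply]
      by_cases h : i = r
      · subst h
        by_cases h0 : s i = 0
        · simp only [h0, decide_true, Bool.true_eq_false, and_false, if_false, h7]; simp
        · simp only [h0, decide_false, and_self, if_true]
          rw [nu, if_neg (by omega), if_neg (by omega), if_neg (by omega), h6 _ h5]
      · simp only [h, false_and, if_false, h7]
    · exact h7
    · exact h7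

section
open Pool.Agent.Lib.helper21.PR Nat.Partrec
attribute [local irreducible] Primrec Computable

def gg (e u k : ℕ) : ℕ :=
  if ∃ m ≤ k, Code.evaln k (Denumerable.ofNat Code e) (Nat.pair u m) = some 0 then 0 else 1

lemma pr_gg : Primrec fun v : List.Vector ℕ 3 => gg v.head v.tail.head v.tail.tail.head := by
  have h1 : Primrec fun v : List.Vector ℕ 3 => v.head := Primrec.vector_head
  have h2 : Primrec fun v : List.Vector ℕ 3 => v.tail.head :=
    Primrec.vector_head.comp Primrec.vector_tail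
  have h3 : Primrec fun v : List.Vector ℕ 3 => v.tail.tail.head :=
    Primrec.vector_head.comp (Primrec.vector_tail.comp Primrec.vector_tail)
  have h : Primrec fun p : ℕ × ℕ × ℕ => gg p.1 p.2.1 p.2.2 := by unfold gg; fun_prop
  exact h.comp (h1.pair (h2.pair h3))

lemma prog_ex : ∃ P : Prog, ∀ e u, (∃ k, gg e u k = 0) →
    ∃ t k, Run P (s0 e u) t ∧ gg e u k = 0 ∧ k ≤ t 2 := by
  obtain ⟨Q, hQ⟩ := prim_prog (Nat.Primrec'.prim_iff.2 pr_gg) ![0, 1, 2] 3 4 (by decide) (by decide)
    (by decide)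
  let B : Prog := .seq (clr 3) (.seq Q (.inc 2))
  let S : ℕ → ℕ → ℕ → ℕ → St := fun e u k v => update (update (s0 e u) 2 k) 3 v
  have hB : ∀ e u k v, Run B (S e u k v) (S e u (k + 1) (gg e u k)) := fun e u k v =>
    (Run.seq (run_clr _ _) (Run.seq (hQ _ (fun r hr => by
      simp only [S, s0, update_apply]; split_ifs <;> omega)) (Run.inc _ _))).of_eq (fun x => by
        have e1 : (List.Vector.ofFn fun i => update (S e u k v) 3 0 (![0, 1, 2] i)).tail.head = u := by
          simp [S, s0]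
        have e2 : (List.Vector.ofFn fun i => update (S e u k v) 3 0 (![0, 1, 2] i)).head = e := by
          simp [S, s0]
        have e3 : (List.Vector.ofFn fun i => update (S e u k v) 3 0 (![0, 1, 2] i)).tail.tail.head = k := by
          simp [S, s0]
        rw [e1, e2, e3]
        simp only [S, s0, update_apply]
        split_ifs <;> omega)
  have e0 : ∀ e u x, update (s0 e u) 3 (s0 e u 3 + 1) x = S e u 0 1 x := by
    intro e u x
    have : s0 e u 3 = 0 := rfl
    rw [this]
    simp only [S, s0, update_apply]; split_ifs <;> omega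
  refine ⟨.seq (.inc 3) (.loop 3 B), fun e u h => ⟨_, Nat.find h, Run.seq ((Run.inc 3 _).of_eq (e0 e u))
    (Run.iter 3 B (Nat.find h + 1) (fun k => S e u k (Nat.casesOn k 1 (gg e u)))
      (by simpa [S] using Nat.find_spec h) ?_), Nat.find_spec h, by simp [S]⟩⟩
  intro k hk
  refine ⟨?_, hB _ _ _ _⟩
  cases k with
  | zero => simp [S]
  | succ k => simpa [S] using Nat.find_min h (by omega : k < Nat.find h)

theorem gm_ex : ∃ M : GM, M.WF ∧ ∀ T : ℕ → ℕ → Prop, PrimrecPred (fun p : ℕ × ℕ => T p.1 p.2) →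
    (∀ n, ∃ m, T n m) → ∃ e, ∀ (n0 : ℕ) (b : Bool), ∃ u ≥ n0, ∃ m, T u m ∧
      ∀ N, u ≤ N → N ≤ m → (M.D e N ↔ b = true) := by
  classical
  obtain ⟨P, hP⟩ := prog_ex
  refine ⟨gm P, gm_wf P, fun T hT h => ?_⟩
  have h1 : Primrec fun n : ℕ => if T n.unpair.1 n.unpair.2 then 0 else 1 :=
    p_ite ((dec hT).comp Primrec.unpair) (by fun_prop) (by fun_prop)
  obtain ⟨c, hc⟩ := Code.exists_code.1 (Nat.Partrec.of_primrec (Primrec.nat_iff.1 h1))
  have h2 : ∀ u m, (∃ k, Code.evaln k c (Nat.pair u m) = some 0) ↔ T u m := fun u m => by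
    have := Code.evaln_complete (c := c) (n := Nat.pair u m) (x := 0)
    simp only [hc, PFun.coe_val, Part.mem_some_iff, Nat.unpair_pair, Option.mem_def] at this
    rw [← this]; split_ifs with h <;> simp [h]
  set e := Encodable.encode c
  have h3 : ∀ u k, gg e u k = 0 ↔ ∃ m ≤ k, Code.evaln k c (Nat.pair u m) = some 0 := fun u k => by
    simp only [gg, e, Denumerable.ofNat_encode]; split_ifs with h <;> simp [h]
  have h4 : ∀ b n s, (ast P e)^[n] (false, [], e, fun _ => 0) = (b, [], e + n, s) →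
      ∃ j s' m, T (e + n + 1) m ∧ m ≤ e + n + 1 + j ∧
      (ast P e)^[n + 1 + j] (false, [], e, fun _ => 0) = (!b, [], e + (n + 1 + j), s') ∧
      ∀ i ≤ j, ((ast P e)^[n + 1 + i] (false, [], e, fun _ => 0)).1 = !b := by
    intro b n s hs
    obtain ⟨m, hm⟩ := h (e + n + 1)
    obtain ⟨k, hk⟩ := (h2 _ _).2 hm
    obtain ⟨t, k', a1, a2, a3⟩ := hP e (e + n + 1) ⟨max k m, (h3 _ _).2 ⟨m, le_max_right _ _,
      Code.evaln_mono (le_max_left _ _) hk⟩⟩
    obtain ⟨m', b1, b2⟩ := (h3 _ _).1 a2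
    obtain ⟨j, c1, c2, c3⟩ := run_ast P e (!b) a1 [] (e + n + 1) (fun r => by
      simp only [s0]; split_ifs <;> omega)
    have e1 : ∀ i, (ast P e)^[n + 1 + i] (false, [], e, fun _ => 0) =
        (ast P e)^[i] (!b, [P], e + n + 1, s0 e (e + n + 1)) := fun i => by
      rw [add_comm _ i, iterate_add_apply, iterate_succ_apply', hs]; rfl
    exact ⟨j, t, m', (h2 _ _).1 ⟨_, b2⟩, by have := c2 2; omega, by rw [e1, c1]; congr 3; omega,
      fun i hi => by rw [e1]; exact c3 i hi⟩
  have h5 : ∀ i b, ∃ n ≥ i, ∃ s, (ast P e)^[n] (false, [], e, fun _ => 0) = (b, [], e + n, s) := by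
    intro i
    induction i with
    | zero =>
      intro b
      cases b
      · exact ⟨0, le_rfl, _, rfl⟩
      · obtain ⟨j, s', m, -, -, h, -⟩ := h4 false 0 _ rfl
        exact ⟨_, Nat.zero_le _, _, h⟩
    | succ i ih =>
      intro b
      obtain ⟨n, h1, s, h2⟩ := ih (!b)
      obtain ⟨j, s', m, -, -, h, -⟩ := h4 _ _ _ h2
      exact ⟨n + 1 + j, by omega, _, by rw [h, Bool.not_not]⟩
  refine ⟨e, fun n0 b => ?_⟩
  obtain ⟨n, a1, s, a2⟩ := h5 n0 (!b)
  obtain ⟨j, s', m, b1, b2, -, b3⟩ := h4 _ _ _ a2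
  refine ⟨e + n + 1, by omega, m, b1, fun N c1 c2 => ?_⟩
  obtain ⟨b', κ, t, s, d1, d2, d3⟩ := gm_sim P e (N - e)
  have := b3 (N - (e + n + 1)) (by omega)
  rw [show n + 1 + (N - (e + n + 1)) = N - e by omega, d1, Bool.not_not] at this
  simp only [GM.D, d3, show e ≤ N by omega, true_and]
  simp [gm, List.idxOf_lt_length_of_mem d2, ← this]

end

end Pool.Agent.H.MP_9e35a6_lc
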