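import Pool.Agent.H.MP_9e35a6_lc.Defs
import Pool.Agent.Lib.lead.CXSat

set_option autoImplicit false

namespace Pool.Agent.H.MP_9e35a6_lc

open Pool.Agent.Lib.CX Function

abbrev At := ℕ × List ℕ
abbrev Cla := List At × List At
abbrev In := List Unit × List At

variable {σ : ℕ} {ar : ℕ → ℕ} {V W : Type} {Γ : List Cla}

def ins (s : ℕ → V) (a : At) : ℕ × List V := (a.1, a.2.map s)

def Sat (X : Set (ℕ × List V)) (c : Cla) (s : ℕ → V) : Prop :=
  (∀ a ∈ c.1, ins s a ∈ X) → ∃ a ∈ c.2, ins s a ∈ X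

def Mod (Γ : List Cla) (X : Set (ℕ × List V)) : Prop := ∀ c ∈ Γ, ∀ s, Sat X c s

def ModOn (n : ℕ) (Γ : List Cla) (X : Set At) : Prop := ∀ c ∈ Γ, ∀ s, (∀ i, s i < n) → Sat X c s

def pull (h : V → W) (X : Set (ℕ × List W)) : Set (ℕ × List V) := {p | (p.1, p.2.map h) ∈ X}

lemma sat_pull {h : V → W} {X : Set (ℕ × List W)} {c : Cla} {s : ℕ → V} :
    Sat (pull h X) c s ↔ Sat X c (h ∘ s) := by
  simp only [Sat, pull, ins, Set.mem_ofPred_eq, List.map_map]

lemma Mod.pull {X : Set (ℕ × List W)} (hX : Mod Γ X) (h : V → W) : Mod Γ (pull h X) :=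
  fun c hc _ => sat_pull.2 (hX c hc _)

lemma sat_congr {X : Set (ℕ × List V)} {c : Cla} {s t : ℕ → V}
    (h : ∀ a ∈ c.1 ++ c.2, ∀ i ∈ a.2, s i = t i) : Sat X c s ↔ Sat X c t := by
  have : ∀ a ∈ c.1 ++ c.2, ins s a = ins t a := fun a ha => by
    simp only [ins, List.map_congr_left (h a ha)]
  unfold Sat
  refine imp_congr (forall₂_congr fun a ha => ?_) (exists_congr fun a => and_congr_right fun ha => ?_)
  · rw [this a (List.mem_append_left _ ha)]
  · rw [this a (List.mem_append_right _ ha)]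

def spull (h : V → W) (X : Str σ ar W) : Str σ ar V :=
  ⟨pull h X.1, fun p hp => by simpa using X.2 _ hp⟩

instance (n : ℕ) : Finite (Str σ ar (Fin n)) := by
  have h : {p : ℕ × List (Fin n) | p.1 < σ ∧ p.2.length = ar p.1}.Finite := by
    refine ((Set.finite_Iio σ).biUnion fun R _ =>
      (List.finite_length_eq (Fin n) (ar R)).image (Prod.mk R)).subset ?_
    rintro ⟨R, t⟩ ⟨h1, h2⟩
    exact Set.mem_biUnion h1 ⟨t, h2, rfl⟩
  exact h.finite_subsets.to_subtype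

structure Gd (σ : ℕ) (ar : ℕ → ℕ) (c : Cla) : Prop where
  wf : ∀ a ∈ c.1 ++ c.2, a.1 < σ ∧ a.2.length = ar a.1
  ne : c.1 ≠ []
  cn : ∀ f : ℕ → Prop, (∀ a ∈ c.1, ∀ x ∈ a.2, ∀ y ∈ a.2, f x → f y) → f 0 →
    ∀ a ∈ c.1, ∀ x ∈ a.2, f x
  rr : ∀ a ∈ c.2, ∀ i ∈ a.2, ∃ b ∈ c.1, i ∈ b.2

def Ix (σ : ℕ) (ar : ℕ → ℕ) (Γ : List Cla) : Type :=
  Σ n : ℕ, {X : Str σ ar (Fin (n + 1)) // Mod Γ X.1}

instance : Countable (Ix σ ar Γ) := by unfold Ix; infer_instance

def UA (σ : ℕ) (ar : ℕ → ℕ) (Γ : List Cla) : Str σ ar (Ix σ ar Γ × ℕ) :=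
  ⟨{p | ∃ i : Ix σ ar Γ, ∃ t : List ℕ, (p.1, t) ∈ pull (Fin.ofNat (i.1 + 1)) i.2.1.1 ∧
    p.2 = t.map (Prod.mk i)}, by
    rintro p ⟨i, t, h1, h2⟩
    have := i.2.1.2 _ h1
    simpa [h2] using this⟩

lemma ua_mem (hp : ∀ R, 0 < ar R) {i : Ix σ ar Γ} {R : ℕ} {t : List ℕ} :
    (R, t.map (Prod.mk i)) ∈ (UA σ ar Γ).1 ↔ (R, t) ∈ pull (Fin.ofNat (i.1 + 1)) i.2.1.1 := by
  refine ⟨?_, fun h => ⟨i, t, h, rfl⟩⟩
  rintro ⟨j, u, h1, h2⟩
  have h3 := (j.2.1.2 _ h1).2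
  have := hp R
  rcases u with _ | ⟨x, u⟩
  · simp at h3; omega
  rcases t with _ | ⟨y, t⟩
  · simp at h2
  obtain rfl : i = j := (Prod.mk.inj (List.cons.inj h2).1).1
  rwa [List.map_injective_iff.2 (Prod.mk_right_injective i) h2]

lemma ua_mod (hp : ∀ R, 0 < ar R) (hΓ : ∀ c ∈ Γ, Gd σ ar c) : Mod Γ (UA σ ar Γ).1 := by
  intro c hc s hb
  have h1 : ∀ a ∈ c.1, ∀ x ∈ a.2, (s x).1 = (s 0).1 := by
    refine (hΓ c hc).cn _ (fun a ha x hx y hy h => ?_) rfl
    obtain ⟨i, t, -, h2⟩ := hb a ha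
    have : ∀ x ∈ a.2, (s x).1 = i := fun x hx => by
      have : s x ∈ t.map (Prod.mk i) := h2 ▸ List.mem_map_of_mem hx
      obtain ⟨_, _, e⟩ := List.mem_map.1 this
      rw [← e]
    rw [this y hy, ← this x hx, h]
  refine (sat_congr (t := Prod.mk (s 0).1 ∘ fun x => (s x).2) fun a ha x hx => ?_).2 ?_ hb
  · refine Prod.ext ?_ rfl
    rcases List.mem_append.1 ha with ha | ha
    · exact h1 a ha x hx
    · obtain ⟨b, hb, hx⟩ := (hΓ c hc).rr a ha x hx
      exact h1 b hb x hx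
  · have := (s 0).1.2.2.pull (Fin.ofNat _) c hc (fun x => (s x).2)
    simpa only [Sat, ins, ← List.map_map, ua_mem hp] using this

lemma ua_emb (hp : ∀ R, 0 < ar R) {n : ℕ} (B : Str σ ar (Fin n)) (hB : Mod Γ B.1) :
    ∃ h, Emb B (UA σ ar Γ) h := by
  cases n with
  | zero =>
    refine ⟨Fin.elim0, fun x => x.elim0, fun p => ?_⟩
    obtain ⟨R, _ | ⟨x, t⟩⟩ := p
    · have := hp R
      exact ⟨fun h => by have := (B.2 _ h).2; simp at this; omega,
        fun h => by have := ((UA σ ar Γ).2 _ h).2; simp at this; omega⟩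
    · exact x.elim0
  | succ n =>
    refine ⟨Prod.mk ⟨n, B, hB⟩ ∘ Fin.val, (Prod.mk_right_injective _).comp Fin.val_injective,
      fun p => ?_⟩
    rw [← List.map_map, ua_mem hp]
    simp only [pull, Set.mem_ofPred_eq, List.map_map]
    rw [show Fin.ofNat (n + 1) ∘ Fin.val = id from funext fun x => by simp, List.map_id]

lemma Emb.eq {X : Str σ ar V} {Y : Str σ ar W} {h : V → W} (e : Emb X Y h) : X.1 = pull h Y.1 :=
  Set.ext e.2

def Vb (v : ℕ) (Γ : List Cla) : Prop := ∀ c ∈ Γ, ∀ a ∈ c.1 ++ c.2, ∀ i ∈ a.2, i < v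

lemma vb_ex (Γ : List Cla) : ∃ v, Vb v Γ := by
  refine ⟨(Γ.flatMap fun c => (c.1 ++ c.2).flatMap Prod.snd).sum + 1, fun c hc a ha i hi =>
    Nat.lt_succ_of_le (List.single_le_sum (fun _ _ => Nat.zero_le _) _ ?_)⟩
  exact List.mem_flatMap.2 ⟨c, hc, List.mem_flatMap.2 ⟨a, ha, hi⟩⟩

theorem ua_fin (hp : ∀ R, 0 < ar R) (hΓ : ∀ c ∈ Γ, Gd σ ar c) : FinBounded (UA σ ar Γ) := by
  classical
  obtain ⟨v, hv⟩ := vb_ex Γ
  refine ⟨{X | X.1 ≤ v + 1 ∧ ¬ Mod Γ X.2.1}, ?_, fun n B => ⟨?_, fun h => ua_emb hp B ?_⟩⟩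
  · refine ((Set.finite_Iic (v + 1)).biUnion fun n _ =>
      (Set.finite_univ (α := Str σ ar (Fin n))).image (Sigma.mk n)).subset ?_
    rintro ⟨n, X⟩ ⟨h, -⟩
    exact Set.mem_biUnion h ⟨X, trivial, rfl⟩
  · rintro ⟨h, e⟩ X hX ⟨g, e'⟩
    exact hX.2 (by rw [e'.eq, e.eq]; exact ((ua_mod hp hΓ).pull _).pull _)
  · intro c hc s
    let S := (Finset.range (v + 1)).image s
    let e := S.equivFin
    have hS : ∀ i, s (min i v) ∈ S := fun i =>
      Finset.mem_image_of_mem _ (Finset.mem_range.2 (by omega))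
    by_contra hn
    refine h ⟨S.card, spull (fun x => (e.symm x).1) B⟩ ⟨Finset.card_image_le.trans (Finset.card_range _).le,
      fun hm => hn ?_⟩ ⟨_, Subtype.val_injective.comp e.symm.injective, fun p => Iff.rfl⟩
    refine (sat_congr fun a ha i hi => ?_).1 (sat_pull.1 (hm c hc fun i => e ⟨_, hS i⟩))
    have := hv c hc a ha i hi
    simp [min_eq_left this.le]

def wf (σ : ℕ) (ar : ℕ → ℕ) (n : ℕ) (p : At) : Prop :=
  p.1 < σ ∧ p.2.length = ar p.1 ∧ ∀ x ∈ p.2, x < n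

lemma csp_of (hp : ∀ R, 0 < ar R) (hΓ : ∀ c ∈ Γ, Gd σ ar c) {a : In} {X : Set At}
    (h1 : ModOn a.1.length Γ X) (h2 : ∀ p ∈ a.2, wf σ ar a.1.length p → p ∈ X) :
    CSP (UA σ ar Γ) a := by
  obtain ⟨h, e⟩ := ua_emb hp (Γ := Γ) (σ := σ) ⟨{p | (p.1 < σ ∧ p.2.length = ar p.1) ∧
    p ∈ pull (Fin.val (n := a.1.length)) X}, fun _ h => h.1⟩ fun c hc s hb => by
      obtain ⟨b, b1, b2⟩ := sat_pull.2 (h1 c hc (Fin.val ∘ s) fun i => (s i).2) fun b hb' => (hb b hb').2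
      exact ⟨b, b1, by simpa [ins] using (hΓ c hc).wf b (List.mem_append_right _ b1), b2⟩
  refine ⟨h, fun p hp' => (e.2 p).1 ⟨hp'.1, h2 _ hp'.2 ⟨hp'.1.1, by simpa using hp'.1.2, ?_⟩⟩⟩
  simp

lemma of_csp (hp : ∀ R, 0 < ar R) (hΓ : ∀ c ∈ Γ, Gd σ ar c) {a : In} (h : CSP (UA σ ar Γ) a) :
    ∃ X : Set At, Mod Γ X ∧ ∀ p ∈ a.2, wf σ ar a.1.length p → p ∈ X := by
  obtain ⟨h, hh⟩ := h
  rcases Nat.eq_zero_or_pos a.1.length with h0 | h0
  · refine ⟨∅, fun c hc s hb => ?_, fun p _ hw => ?_⟩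
    · obtain ⟨b, hb'⟩ := List.exists_mem_of_ne_nil _ (hΓ c hc).ne
      exact (hb b hb').elim
    · have := hp p.1
      obtain ⟨x, hx⟩ := List.exists_mem_of_length_pos (hw.2.1 ▸ this)
      have := hw.2.2 x hx; omega
  · let r : ℕ → Fin a.1.length := fun x => ⟨x % _, Nat.mod_lt _ h0⟩
    refine ⟨_, (ua_mod hp hΓ).pull (h ∘ r), fun p hp' hw => ?_⟩
    have := hh (p.1, p.2.map r) ⟨⟨hw.1, by simpa using hw.2.1⟩, by
      rwa [List.map_map, List.map_congr_left (f := Fin.val ∘ r) (g := id)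
        fun x hx => Nat.mod_eq_of_lt (hw.2.2 x hx), List.map_id]⟩
    rwa [List.map_map] at this

def tup (n : ℕ) : ℕ → List (List ℕ)
  | 0 => [[]]
  | j + 1 => (List.range n).flatMap fun x => (tup n j).map (x :: ·)

lemma mem_tup {n j : ℕ} {l : List ℕ} : l ∈ tup n j ↔ l.length = j ∧ ∀ x ∈ l, x < n := by
  induction j generalizing l with
  | zero => simp only [tup, List.mem_singleton, List.length_eq_zero_iff]; aesop
  | succ j ih => cases l <;> simp [tup, ih]; tauto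

@[fun_prop] lemma pt_tup {α : Type} [Enc α] {u : α → List Unit} (hu : PT u) (j : ℕ) :
    PT fun a => tup (u a).length j := by
  induction j with
  | zero => exact PT.const _
  | succ j ih =>
    unfold tup
    exact PT.flatMap (PT.map (by fun_prop) (ih.comp PT.fst')) (by fun_prop)

def allf (σ : ℕ) (ar : ℕ → ℕ) (n : ℕ) : List At :=
  (List.range σ).flatMap fun R => (tup n (ar R)).map (Prod.mk R)

lemma mem_allf {n : ℕ} {p : At} : p ∈ allf σ ar n ↔ wf σ ar n p := by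
  obtain ⟨R, t⟩ := p
  simp [allf, wf, mem_tup]

@[fun_prop] lemma pt_allf {α : Type} [Enc α] {u : α → List Unit} (hu : PT u) :
    PT fun a => allf σ ar (u a).length :=
  PT.flatMap_const _ fun _ _ => by fun_prop

def gl (l : List ℕ) (a : At) : At := (a.1, a.2.map fun i => l.getD i 0)

def chk (Γ : List Cla) (v : ℕ) (u : List Unit) (F : List At) : Bool :=
  Γ.all fun c => (tup u.length v).all fun l => !(c.1.all fun a => decide (gl l a ∈ F)) ||
    c.2.any fun a => decide (gl l a ∈ F)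

@[fun_prop] lemma pt_chk {α : Type} [Enc α] {v : ℕ} {u : α → List Unit} {F : α → List At}
    (hu : PT u) (hF : PT F) : PT fun a => chk Γ v (u a) (F a) := by
  unfold chk gl; fun_prop

lemma all_tup {v n : ℕ} (hv : Vb v Γ) {c : Cla} (hc : c ∈ Γ) {s : ℕ → ℕ} (hs : ∀ i, s i < n) :
    ∃ l ∈ tup n v, ∀ a ∈ c.1 ++ c.2, gl l a = ins s a := by
  refine ⟨(List.range v).map s, mem_tup.2 ⟨by simp, by simp [hs]⟩, fun a ha => ?_⟩
  simp only [gl, ins]
  rw [List.map_congr_left fun i hi => ?_]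
  simp [hv c hc a ha i hi]

lemma chk_iff {v : ℕ} (hv : Vb (v + 1) Γ) {u : List Unit} {F : List At} :
    chk Γ (v + 1) u F = true ↔ ModOn u.length Γ {p | p ∈ F} := by
  simp only [chk, List.all_eq_true, Bool.or_eq_true, Bool.not_eq_true', ← Bool.not_eq_true,
    decide_eq_true_eq, List.any_eq_true, ← imp_iff_not_or]
  refine forall₂_congr fun c hc => ⟨fun h s hs hb => ?_, fun h l hl => ?_⟩
  · obtain ⟨l, hl, e⟩ := all_tup hv hc hs
    obtain ⟨a, a1, a2⟩ := h l hl fun a ha => by rw [e a (List.mem_append_left _ ha)]; exact hb a ha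
    exact ⟨a, a1, by rw [← e a (List.mem_append_right _ a1)]; exact a2⟩
  · obtain ⟨h1, h2⟩ := mem_tup.1 hl
    refine h (fun i => l.getD i 0) fun i => ?_
    rw [List.getD_eq_getElem?_getD]
    cases hi : l[i]? with
    | none => exact Nat.zero_lt_of_lt (h2 l[0] (List.getElem_mem _))
    | some x => exact h2 x (List.mem_of_getElem? hi)

lemma Vb.mono {v w : ℕ} (h : Vb v Γ) (e : v ≤ w) : Vb w Γ :=
  fun c hc a ha i hi => (h c hc a ha i hi).trans_le e

theorem ua_np (hp : ∀ R, 0 < ar R) (hΓ : ∀ c ∈ Γ, Gd σ ar c) : InNP (CSP (UA σ ar Γ)) := by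
  classical
  obtain ⟨v, hv⟩ := vb_ex Γ
  have hv := hv.mono (Nat.le_succ v)
  refine InNP.of_cert (fun (a : In) (F : List At) => chk Γ (v + 1) a.1 F &&
    a.2.all fun p => !decide (p ∈ allf σ ar a.1.length) || decide (p ∈ F))
    (fun a => size (allf σ ar a.1.length)) (by fun_prop) (by fun_prop) (fun a F h => ?_)
    fun a ha => ?_
  · simp only [Bool.and_eq_true, chk_iff hv, List.all_eq_true, Bool.or_eq_true, Bool.not_eq_true',
      decide_eq_false_iff_not, decide_eq_true_eq, mem_allf] at h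
    exact csp_of hp hΓ h.1 fun p hp hw => (h.2 p hp).resolve_left (not_not.2 hw)
  · obtain ⟨X, h1, h2⟩ := of_csp hp hΓ ha
    refine ⟨(allf σ ar a.1.length).filter (fun p => p ∈ X), size_sublist List.filter_sublist, ?_⟩
    simp only [Bool.and_eq_true, chk_iff hv, List.all_eq_true, Bool.or_eq_true, Bool.not_eq_true',
      decide_eq_false_iff_not, decide_eq_true_eq, mem_allf, List.mem_filter]
    refine ⟨fun c hc s hs hb => ?_, fun p hp => ?_⟩
    · obtain ⟨b, b1, b2⟩ := h1 c hc s fun b hb' => (hb b hb').2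
      have := (hΓ c hc).wf b (List.mem_append_right _ b1)
      exact ⟨b, b1, ⟨this.1, by simpa [ins] using this.2, by simp [ins, hs]⟩, b2⟩
    · by_cases hw : wf σ ar a.1.length p
      · exact Or.inr ⟨hw, h2 p hp hw⟩
      · exact Or.inl hw

lemma mod_of_on (hp : ∀ R, 0 < ar R) (hΓ : ∀ c ∈ Γ, Gd σ ar c) {n : ℕ} {X : Set At}
    (hX : ∀ p ∈ X, ∀ x ∈ p.2, x < n) (h : ModOn n Γ X) : Mod Γ X := by
  intro c hc s hb
  have h1 : ∀ a ∈ c.1, ∀ i ∈ a.2, s i < n := fun a ha i hi =>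
    hX _ (hb a ha) _ (List.mem_map_of_mem hi)
  obtain ⟨b, hb'⟩ := List.exists_mem_of_ne_nil _ (hΓ c hc).ne
  obtain ⟨x, hx⟩ := List.exists_mem_of_length_pos
    (((hΓ c hc).wf b (List.mem_append_left _ hb')).2 ▸ hp b.1)
  have h0 := h1 b hb' x hx
  refine (sat_congr fun a ha i hi => ?_).1
    (h c hc (fun i => if s i < n then s i else 0) fun i => by split_ifs <;> omega) hb
  rcases List.mem_append.1 ha with ha | ha
  · exact if_pos (h1 a ha i hi)
  · obtain ⟨b, hb, hi⟩ := (hΓ c hc).rr a ha i hi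
    exact if_pos (h1 b hb i hi)

def rnd (σ : ℕ) (ar : ℕ → ℕ) (Γ : List Cla) (v : ℕ) (u : List Unit) (F : List At) : List At :=
  (allf σ ar u.length).filter fun p => decide (p ∈ F) || Γ.any fun c => (tup u.length v).any fun l =>
    (c.1.all fun a => decide (gl l a ∈ F)) && c.2.any fun a => decide (gl l a = p)

def clo (σ : ℕ) (ar : ℕ → ℕ) (Γ : List Cla) (v : ℕ) (a : In) : List At :=
  (rnd σ ar Γ v a.1)^[(allf σ ar a.1.length).length]
    ((allf σ ar a.1.length).filter fun p => decide (p ∈ a.2))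

lemma it_sub (v : ℕ) (u : List Unit) (P : At → Bool) (j : ℕ) :
    ∃ Q, (rnd σ ar Γ v u)^[j] ((allf σ ar u.length).filter P) = (allf σ ar u.length).filter Q := by
  cases j with
  | zero => exact ⟨_, rfl⟩
  | succ j => rw [iterate_succ_apply']; exact ⟨_, rfl⟩

lemma pt_clo (v : ℕ) : PT (clo σ ar Γ v) := by
  refine PT.iterate (F := fun a : In => rnd σ ar Γ v a.1) (B := fun a => size (allf σ ar a.1.length))
    (by unfold rnd gl; fun_prop) (by fun_prop) (by fun_prop) (by fun_prop) (by fun_prop) fun a k _ => ?_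
  obtain ⟨Q, h⟩ := it_sub (σ := σ) (ar := ar) (Γ := Γ) v a.1 (fun p => decide (p ∈ a.2)) k
  rw [h]; exact size_sublist List.filter_sublist

lemma mem_rnd {v : ℕ} {u : List Unit} {F : List At} {p : At} : p ∈ rnd σ ar Γ v u F ↔
    wf σ ar u.length p ∧ (p ∈ F ∨ ∃ c ∈ Γ, ∃ l ∈ tup u.length v, (∀ a ∈ c.1, gl l a ∈ F) ∧
      ∃ a ∈ c.2, gl l a = p) := by
  simp only [rnd, List.mem_filter, mem_allf, Bool.or_eq_true, decide_eq_true_eq, List.any_eq_true,
    Bool.and_eq_true, List.all_eq_true]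

lemma clo_spec (hp : ∀ R, 0 < ar R) (hΓ : ∀ c ∈ Γ, Gd σ ar c) (h1 : ∀ c ∈ Γ, ∃ b, c.2 = [b])
    {v : ℕ} (hv : Vb v Γ) (a : In) :
    (∀ p ∈ clo σ ar Γ v a, wf σ ar a.1.length p) ∧
    (∀ p ∈ a.2, wf σ ar a.1.length p → p ∈ clo σ ar Γ v a) ∧ Mod Γ {p | p ∈ clo σ ar Γ v a} ∧
    ∀ X : Set At, Mod Γ X → (∀ p ∈ a.2, wf σ ar a.1.length p → p ∈ X) →
      ∀ p ∈ clo σ ar Γ v a, p ∈ X := by
  set F := fun j => (rnd σ ar Γ v a.1)^[j] ((allf σ ar a.1.length).filter fun p => decide (p ∈ a.2))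
    with hF
  have e0 : clo σ ar Γ v a = F (allf σ ar a.1.length).length := rfl
  have e1 : ∀ j, F (j + 1) = rnd σ ar Γ v a.1 (F j) := fun j => iterate_succ_apply' _ _ _
  have w : ∀ j, ∀ p ∈ F j, wf σ ar a.1.length p := fun j p hp => by
    obtain ⟨Q, h⟩ := it_sub (σ := σ) (ar := ar) (Γ := Γ) v a.1 (fun p => decide (p ∈ a.2)) j
    simp only [hF, h] at hp
    exact mem_allf.1 (List.mem_filter.1 hp).1
  have sub : ∀ j, (F j).Sublist (F (j + 1)) := fun j => by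
    obtain ⟨Q, h⟩ := it_sub (σ := σ) (ar := ar) (Γ := Γ) v a.1 (fun p => decide (p ∈ a.2)) j
    rw [e1]
    simp only [hF, h]
    have : (allf σ ar a.1.length).filter Q = (allf σ ar a.1.length).filter
        (fun p => decide (p ∈ (allf σ ar a.1.length).filter Q)) :=
      List.filter_congr fun p hp => by simp [hp]
    conv_lhs => rw [this]
    exact List.monotone_filter_right _ fun p hp => by rw [hp]; rfl
  have fix : ∀ j, F (j + 1) = F j ∨ j < (F (j + 1)).length := by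
    intro j
    induction j with
    | zero =>
      by_contra! h
      exact h.1 ((sub 0).eq_of_length_le (by omega)).symm
    | succ j ih =>
      rcases ih with h | h
      · left; rw [e1, h, ← e1, h]
      · by_contra! h'
        exact h'.1 ((sub _).eq_of_length_le (by omega)).symm
  have fx : rnd σ ar Γ v a.1 (clo σ ar Γ v a) = clo σ ar Γ v a := by
    rw [e0, ← e1]
    refine (fix _).resolve_right (not_lt.2 ?_)
    rw [e1]; exact List.length_filter_le _ _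
  refine ⟨w _, fun p hp hw => ?_, mod_of_on hp hΓ (fun p hp => (w _ p hp).2.2) fun c hc s hs hb => ?_,
    fun X x1 x2 => ?_⟩
  · rw [e0]
    generalize (allf σ ar a.1.length).length = j
    induction j with
    | zero => exact List.mem_filter.2 ⟨mem_allf.2 hw, by simpa using hp⟩
    | succ j ih => exact (sub j).subset ih
  · obtain ⟨b, hb'⟩ := h1 c hc
    obtain ⟨l, hl, e⟩ := all_tup hv hc hs
    have hb2 : b ∈ c.2 := by simp [hb']
    have := (hΓ c hc).wf b (List.mem_append_right _ hb2)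
    refine ⟨b, hb2, ?_⟩
    rw [← fx]
    exact mem_rnd.2 ⟨⟨this.1, by simpa [ins] using this.2, by simp [ins, hs]⟩, Or.inr ⟨c, hc, l, hl,
      fun a ha => by rw [e a (List.mem_append_left _ ha)]; exact hb a ha, b, hb2,
      e b (List.mem_append_right _ hb2)⟩⟩
  · rw [e0]
    generalize (allf σ ar a.1.length).length = j
    induction j with
    | zero => exact fun p hp => x2 p (by simpa using (List.mem_filter.1 hp).2) (w 0 p hp)
    | succ j ih =>
      intro p hp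
      rw [e1] at hp
      rcases (mem_rnd.1 hp).2 with h | ⟨c, hc, l, -, h2, b, b1, rfl⟩
      · exact ih p h
      · obtain ⟨b', hb'⟩ := h1 c hc
        obtain ⟨d, d1, d2⟩ := x1 c hc (fun i => l.getD i 0) fun a ha => ih _ (h2 a ha)
        rw [hb', List.mem_singleton] at b1 d1
        rw [b1, ← d1]; exact d2

end Pool.Agent.H.MP_9e35a6_lc
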