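import Pool.Agent.H.MP_9e35a6_lc.B
import Pool.Agent.H.MP_9e35a6_lc.C

set_option autoImplicit false

namespace Pool.Agent.H.MP_9e35a6_lc

open Pool.Agent.Lib.CX Function

def arf (k R : ℕ) : ℕ := if R < 8 then [1, 1, 2, 2, 2, 3, 1, 1].getD R 0 else k

def G1 : List Cla := [([(0, [0])], [(3, [0, 0])]), ([(3, [0, 1])], [(3, [1, 0])]),
  ([(3, [0, 1]), (3, [1, 2])], [(3, [0, 2])]), ([(2, [0, 1]), (2, [0, 2])], [(3, [1, 2])]),
  ([(2, [1, 0]), (2, [2, 0])], [(3, [1, 2])]), ([(2, [0, 1]), (3, [0, 2])], [(2, [2, 1])]),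
  ([(2, [0, 1]), (3, [1, 2])], [(2, [0, 2])]), ([(0, [0]), (3, [0, 1])], [(0, [1])]),
  ([(1, [0]), (3, [0, 1])], [(1, [1])]), ([(6, [0]), (3, [0, 1])], [(6, [1])]),
  ([(7, [0]), (3, [0, 1])], [(7, [1])]), ([(7, [0]), (2, [1, 0])], [(7, [1])]),
  ([(2, [0, 1])], [(4, [0, 1])]), ([(3, [0, 1])], [(4, [0, 1])]), ([(4, [0, 1])], [(4, [1, 0])]),
  ([(4, [0, 1]), (4, [1, 2])], [(4, [0, 2])]), ([(5, [0, 1, 2])], [(4, [0, 1])]),
  ([(5, [0, 1, 2])], [(4, [0, 2])]), ([(0, [0]), (0, [1]), (4, [0, 1])], [(3, [0, 1])])]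

def B1 : List Cla := [([(0, [0]), (2, [1, 0])], []), ([(1, [0]), (2, [0, 1])], [])]

def N1 : List Cla := [([(5, [0, 1, 2]), (6, [0]), (6, [1]), (6, [2])], [(7, [0]), (7, [1]), (7, [2])]),
  ([(5, [0, 1, 2])], [(6, [0]), (6, [1]), (6, [2]), (7, [0]), (7, [1]), (7, [2])])]

def mr (M : GM) (s : ℕ) (b : Bool) : Cla :=
  ([(8 + s, List.range M.k), (2, [0, M.k]), (2, [M.rg s, M.k + 1]),
    if b then (0, [M.rg s]) else (2, [M.k + 2, M.rg s])], [(8 + M.nx s b, M.hd s b)])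

def G2 (M : GM) : List Cla := (List.range M.ns).flatMap fun s => [mr M s true, mr M s false]

def br (M : GM) (s : ℕ) : Cla := ([(8 + s, List.range M.k), (1, [0])], [])

def B2 (M : GM) : List Cla := ((List.range M.ns).filter M.fl).map (br M)

def sr (M : GM) (e : ℕ) : Cla :=
  ((7, [0]) :: (0, [0]) :: (List.range e).map fun i => (2, [i, i + 1]), [(8, M.i0 e)])

def GA (M : GM) (e : ℕ) : List Cla := sr M e :: (((G1 ++ G2 M) ++ (B1 ++ B2 M)) ++ N1)

lemma mem_G2 {M : GM} {c : Cla} : c ∈ G2 M ↔ ∃ s < M.ns, ∃ b, c = mr M s b := by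
  simp [G2, or_comm]

lemma mem_B2 {M : GM} {c : Cla} : c ∈ B2 M ↔ ∃ s < M.ns, M.fl s = true ∧ c = br M s := by
  simp only [B2, List.mem_map, List.mem_filter, List.mem_range, and_assoc, eq_comm]

lemma arf_pos {M : GM} (h : M.WF) (R : ℕ) : 0 < arf M.k R := by
  have := h.k
  unfold arf; split_ifs with h
  · interval_cases R <;> simp
  · omega

lemma star {c : Cla} (h : ∃ b ∈ c.1, 0 ∈ b.2 ∧ ∀ a ∈ c.1, ∃ x ∈ a.2, x ∈ b.2) (f : ℕ → Prop)
    (hf : ∀ a ∈ c.1, ∀ x ∈ a.2, ∀ y ∈ a.2, f x → f y) (h0 : f 0) : ∀ a ∈ c.1, ∀ x ∈ a.2, f x := by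
  obtain ⟨b, b1, b2, b3⟩ := h
  intro a ha x hx
  obtain ⟨y, y1, y2⟩ := b3 a ha
  exact hf a ha y y1 x hx (hf b b1 0 b2 y y2 h0)

lemma gd_st (n k : ℕ) : ∀ c ∈ G1 ++ B1 ++ N1, Gd (8 + n) (arf k) c := by
  have h1 : ∀ c ∈ G1 ++ B1 ++ N1, ∀ a ∈ c.1 ++ c.2, a.1 < 8 ∧ a.2.length = arf 0 a.1 := by decide
  have h2 : ∀ c ∈ G1 ++ B1 ++ N1, c.1 ≠ [] := by decide
  have h3 : ∀ c ∈ G1 ++ B1 ++ N1, ∃ b ∈ c.1, 0 ∈ b.2 ∧ ∀ a ∈ c.1, ∃ x ∈ a.2, x ∈ b.2 := by decide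
  have h4 : ∀ c ∈ G1 ++ B1 ++ N1, ∀ a ∈ c.2, ∀ i ∈ a.2, ∃ b ∈ c.1, i ∈ b.2 := by decide
  refine fun c hc => ⟨fun a ha => ?_, h2 c hc, star (h3 c hc), h4 c hc⟩
  obtain ⟨a1, a2⟩ := h1 c hc a ha
  exact ⟨by omega, by simpa only [arf, if_pos a1] using a2⟩

lemma gd_mr {M : GM} (h : M.WF) {s : ℕ} (hs : s < M.ns) (b : Bool) :
    Gd (8 + M.ns) (arf M.k) (mr M s b) := by
  have h1 := h.rg s hs
  have h2 := h.nx s hs b
  have h3 := h.k
  refine ⟨?_, by simp [mr], fun f hf h0 => ?_, ?_⟩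
  · cases b <;> simp [mr, arf, h.len] <;> omega
  · have a1 : ∀ x < M.k, f x := fun x hx =>
      hf (8 + s, List.range M.k) (by simp [mr]) 0 (by simp; omega) x (by simpa) h0
    have a2 := hf (2, [0, M.k]) (by simp [mr]) 0 (by simp) M.k (by simp) h0
    have a3 := hf (2, [M.rg s, M.k + 1]) (by simp [mr]) _ (by simp) (M.k + 1) (by simp) (a1 _ h1)
    cases b
    · have a4 := hf (2, [M.k + 2, M.rg s]) (by simp [mr]) _ (by simp) (M.k + 2) (by simp) (a1 _ h1)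
      simpa [mr, h0, a2, a3, a4, a1 _ h1] using a1
    · simpa [mr, h0, a2, a3, a1 _ h1] using a1
  · simp only [mr, List.mem_singleton, forall_eq]
    intro i hi
    have := h.lt s b i hi
    have := h.zero s
    by_cases e : i = M.k + 2
    · cases b
      · simp [e]
      · exact absurd (e ▸ hi) this
    · simp; omega

lemma gd_br {M : GM} (h : M.WF) {s : ℕ} (hs : s < M.ns) : Gd (8 + M.ns) (arf M.k) (br M s) := by
  have h3 := h.k
  refine ⟨by simp [br, arf]; omega, by simp [br], fun f hf h0 => ?_, by simp [br]⟩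
  have a1 : ∀ x < M.k, f x := fun x hx =>
    hf (8 + s, List.range M.k) (by simp [br]) 0 (by simp; omega) x (by simpa) h0
  simpa [br, h0] using a1

lemma gd_sr {M : GM} (h : M.WF) (e : ℕ) : Gd (8 + M.ns) (arf M.k) (sr M e) := by
  have h3 := h.k
  have := h.ns
  refine ⟨?_, by simp [sr], fun f hf h0 => ?_, ?_⟩
  · simp only [sr, List.cons_append, List.forall_mem_cons, List.forall_mem_append,
      List.forall_mem_map, List.not_mem_nil, IsEmpty.forall_iff, implies_true, and_true]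
    simp [arf, GM.i0]
    exact ⟨by omega, fun _ _ => by omega, by omega, by omega⟩
  · have a1 : ∀ x ≤ e, f x := fun x => by
      induction x with
      | zero => exact fun _ => h0
      | succ x ih =>
        exact fun hx => hf (2, [x, x + 1]) (by simp [sr]; omega) x (by simp) _ (by simp) (ih (by omega))
    simp only [sr, List.forall_mem_cons, List.not_mem_nil, IsEmpty.forall_iff, implies_true,
      and_true, List.forall_mem_map, List.mem_range]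
    exact ⟨h0, h0, fun i hi => ⟨a1 _ hi.le, a1 _ hi⟩⟩
  · simp only [sr, List.mem_singleton, forall_eq]
    intro i hi
    have : i = 0 ∨ i = e := by
      simp only [GM.i0, List.mem_cons, List.mem_replicate] at hi; tauto
    rcases Nat.eq_zero_or_pos i with h | h
    · exact ⟨(7, [0]), by simp, by simp [h]⟩
    · exact ⟨(2, [i - 1, i - 1 + 1]), by simp; omega, by simp; omega⟩

lemma gd_G0 {M : GM} (h : M.WF) : ∀ c ∈ G1 ++ G2 M, Gd (8 + M.ns) (arf M.k) c := by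
  intro c hc
  rcases List.mem_append.1 hc with hc | hc
  · exact gd_st _ _ c (by simp [hc])
  · obtain ⟨s, hs, b, rfl⟩ := mem_G2.1 hc; exact gd_mr h hs b

lemma gd_GB {M : GM} (h : M.WF) : ∀ c ∈ B1 ++ B2 M, Gd (8 + M.ns) (arf M.k) c := by
  intro c hc
  rcases List.mem_append.1 hc with hc | hc
  · exact gd_st _ _ c (by simp [hc])
  · obtain ⟨s, hs, -, rfl⟩ := mem_B2.1 hc; exact gd_br h hs

lemma gd_GA {M : GM} (h : M.WF) (e : ℕ) : ∀ c ∈ GA M e, Gd (8 + M.ns) (arf M.k) c := by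
  intro c hc
  rcases List.mem_cons.1 hc with rfl | hc
  · exact gd_sr h e
  rcases List.mem_append.1 hc with hc | hc
  · exact (List.mem_append.1 hc).elim (gd_G0 h c) (gd_GB h c)
  · exact gd_st _ _ c (by simp [hc])

lemma horn_G0 (M : GM) : ∀ c ∈ G1 ++ G2 M, ∃ b, c.2 = [b] := by
  intro c hc
  rcases List.mem_append.1 hc with hc | hc
  · exact List.length_eq_one_iff.1 ((by decide : ∀ c ∈ G1, c.2.length = 1) c hc)
  · obtain ⟨s, hs, b, rfl⟩ := mem_G2.1 hc; exact ⟨_, rfl⟩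

structure Base (X : Set At) : Prop where
  rf : ∀ x, (0, [x]) ∈ X → (3, [x, x]) ∈ X
  sy : ∀ x y, (3, [x, y]) ∈ X → (3, [y, x]) ∈ X
  tr : ∀ x y z, (3, [x, y]) ∈ X → (3, [y, z]) ∈ X → (3, [x, z]) ∈ X
  f1 : ∀ x y z, (2, [x, y]) ∈ X → (2, [x, z]) ∈ X → (3, [y, z]) ∈ X
  f2 : ∀ x y z, (2, [y, x]) ∈ X → (2, [z, x]) ∈ X → (3, [y, z]) ∈ X
  c1 : ∀ x y z, (2, [x, y]) ∈ X → (3, [x, z]) ∈ X → (2, [z, y]) ∈ X
  c2 : ∀ x y z, (2, [x, y]) ∈ X → (3, [y, z]) ∈ X → (2, [x, z]) ∈ X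
  c0 : ∀ x y, (0, [x]) ∈ X → (3, [x, y]) ∈ X → (0, [y]) ∈ X
  cl : ∀ x y, (1, [x]) ∈ X → (3, [x, y]) ∈ X → (1, [y]) ∈ X
  c6 : ∀ x y, (6, [x]) ∈ X → (3, [x, y]) ∈ X → (6, [y]) ∈ X
  c7 : ∀ x y, (7, [x]) ∈ X → (3, [x, y]) ∈ X → (7, [y]) ∈ X
  tb : ∀ x y, (7, [x]) ∈ X → (2, [y, x]) ∈ X → (7, [y]) ∈ X
  s2 : ∀ x y, (2, [x, y]) ∈ X → (4, [x, y]) ∈ X
  s3 : ∀ x y, (3, [x, y]) ∈ X → (4, [x, y]) ∈ X
  ss : ∀ x y, (4, [x, y]) ∈ X → (4, [y, x]) ∈ X
  st : ∀ x y z, (4, [x, y]) ∈ X → (4, [y, z]) ∈ X → (4, [x, z]) ∈ X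
  e1 : ∀ x y z, (5, [x, y, z]) ∈ X → (4, [x, y]) ∈ X
  e2 : ∀ x y z, (5, [x, y, z]) ∈ X → (4, [x, z]) ∈ X
  mg : ∀ x y, (0, [x]) ∈ X → (0, [y]) ∈ X → (4, [x, y]) ∈ X → (3, [x, y]) ∈ X
  b0 : ∀ x y, (0, [x]) ∈ X → (2, [y, x]) ∉ X
  b1 : ∀ x y, (1, [x]) ∈ X → (2, [x, y]) ∉ X

def Nae (X : Set At) : Prop := ∀ x y z, (5, [x, y, z]) ∈ X →
  ((7, [x]) ∈ X ∨ (7, [y]) ∈ X ∨ (7, [z]) ∈ X) ∨
    (¬ ((6, [x]) ∈ X ∧ (6, [y]) ∈ X ∧ (6, [z]) ∈ X) ∧ ((6, [x]) ∈ X ∨ (6, [y]) ∈ X ∨ (6, [z]) ∈ X))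

lemma mod3 {Γ : List Cla} (hv : Vb 3 Γ) {X : Set At} :
    Mod Γ X ↔ ∀ c ∈ Γ, ∀ x y z, Sat X c fun i => [x, y, z].getD i 0 := by
  refine forall₂_congr fun c hc => ⟨fun h _ _ _ => h _, fun h s => ?_⟩
  refine (sat_congr fun a ha i hi => ?_).1 (h (s 0) (s 1) (s 2))
  have := hv c hc a ha i hi
  interval_cases i <;> rfl

lemma base_iff {X : Set At} : (Mod G1 X ∧ Mod B1 X) ↔ Base X := by
  rw [mod3 (by unfold Vb; decide), mod3 (by unfold Vb; decide)]
  simp only [G1, B1, List.forall_mem_cons, List.not_mem_nil, IsEmpty.forall_iff, implies_true,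
    and_true, Sat, ins, List.map_cons, List.map_nil, List.getD_cons_zero, List.getD_cons_succ,
    List.exists_mem_cons_iff, or_false, and_imp, forall_const, false_and, exists_false, imp_false,
    not_and]
  exact ⟨fun ⟨⟨a1, a2, a3, a4, a5, a6, a7, a8, a9, a10, a11, a12, a13, a14, a15, a16, a17, a18, a19⟩,
    b1, b2⟩ => ⟨a1, a2, a3, a4, a5, a6, a7, a8, a9, a10, a11, a12, a13, a14, a15, a16, a17, a18,
      a19, b1, b2⟩, fun ⟨a1, a2, a3, a4, a5, a6, a7, a8, a9, a10, a11, a12, a13, a14, a15, a16, a17,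
      a18, a19, b1, b2⟩ => ⟨⟨a1, a2, a3, a4, a5, a6, a7, a8, a9, a10, a11, a12, a13, a14, a15, a16,
      a17, a18, a19⟩, b1, b2⟩⟩

lemma nae_iff {X : Set At} : Mod N1 X ↔ Nae X := by
  rw [mod3 (by unfold Vb; decide)]
  simp only [N1, List.forall_mem_cons, List.not_mem_nil, IsEmpty.forall_iff, implies_true,
    and_true, Sat, ins, List.map_cons, List.map_nil, List.getD_cons_zero, List.getD_cons_succ,
    and_imp, List.exists_mem_cons_iff, false_and, exists_false, or_false, Nae, ← forall_and]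
  refine forall₃_congr fun x y z => ?_
  tauto

lemma mod_append {V : Type} {Γ Δ : List Cla} {X : Set (ℕ × List V)} :
    Mod (Γ ++ Δ) X ↔ Mod Γ X ∧ Mod Δ X := by simp only [Mod, List.forall_mem_append]

lemma mod_GA {M : GM} {e : ℕ} {X : Set At} : Mod (GA M e) X ↔
    (∀ s, Sat X (sr M e) s) ∧ Base X ∧ Mod (G2 M) X ∧ Mod (B2 M) X ∧ Nae X := by
  rw [GA, Mod, List.forall_mem_cons, ← Mod, mod_append, mod_append, mod_append, mod_append,
    ← base_iff, nae_iff]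
  tauto

def Pos (X : Set At) (a : ℕ) : ℕ → ℕ → Prop
  | 0, y => (3, [a, y]) ∈ X
  | i + 1, y => ∃ x, Pos X a i x ∧ (2, [x, y]) ∈ X

namespace Base
variable {X : Set At} (h : Base X) {a b i j x y z : ℕ}
include h

lemma p_eq (p : Pos X a i x) (e : (3, [x, y]) ∈ X) : Pos X a i y := by
  cases i with
  | zero => exact h.tr _ _ _ p e
  | succ i => obtain ⟨w, p, s⟩ := p; exact ⟨w, p, h.c2 _ _ _ s e⟩

lemma p_un (p : Pos X a i x) (q : Pos X a i y) : (3, [x, y]) ∈ X := by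
  induction i generalizing x y with
  | zero => exact h.tr _ _ _ (h.sy _ _ p) q
  | succ i ih =>
    obtain ⟨w, p, s⟩ := p
    obtain ⟨v, q, t⟩ := q
    exact h.f1 _ _ _ (h.c1 _ _ _ s (ih p q)) t

lemma p_pr (ha : (0, [a]) ∈ X) (p : Pos X a i x) (s : (2, [y, x]) ∈ X) :
    ∃ j, i = j + 1 ∧ Pos X a j y := by
  cases i with
  | zero => exact absurd s (h.b0 _ _ (h.c0 _ _ ha p))
  | succ i => obtain ⟨w, p, t⟩ := p; exact ⟨i, rfl, h.p_eq p (h.f2 _ _ _ t s)⟩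

lemma p_fi (p : Pos X a i x) (f : (0, [x]) ∈ X) : i = 0 := by
  cases i with
  | zero => rfl
  | succ i => obtain ⟨w, -, t⟩ := p; exact absurd t (h.b0 _ _ f)

lemma p_S (p : Pos X a i x) : (4, [a, x]) ∈ X := by
  induction i generalizing x with
  | zero => exact h.s3 _ _ p
  | succ i ih => obtain ⟨w, p, s⟩ := p; exact h.st _ _ _ (ih p) (h.s2 _ _ s)

lemma p_inj (ha : (0, [a]) ∈ X) (hb : (0, [b]) ∈ X) (p : Pos X a i x) (q : Pos X b j x) : i = j := by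
  induction i generalizing j x with
  | zero => exact (h.p_fi q (h.c0 _ _ ha p)).symm
  | succ i ih =>
    obtain ⟨w, p, s⟩ := p
    obtain ⟨j, rfl, q'⟩ := h.p_pr hb q s
    rw [ih p q']

lemma p_cg (e : (3, [a, b]) ∈ X) (p : Pos X a i x) : Pos X b i x := by
  induction i generalizing x with
  | zero => exact h.tr _ _ _ (h.sy _ _ e) p
  | succ i ih => obtain ⟨w, p, s⟩ := p; exact ⟨w, ih p, s⟩

lemma p_ext (ha : (0, [a]) ∈ X) (hb : (0, [b]) ∈ X) (e : (4, [a, b]) ∈ X) : Pos X a = Pos X b :=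
  funext₂ fun _ _ => propext ⟨h.p_cg (h.mg _ _ ha hb e), h.p_cg (h.mg _ _ hb ha (h.ss _ _ e))⟩

lemma p_T (p : Pos X a i x) (t : (7, [x]) ∈ X) : (7, [a]) ∈ X := by
  induction i generalizing x with
  | zero => exact h.c7 _ _ t (h.sy _ _ p)
  | succ i ih => obtain ⟨w, p, s⟩ := p; exact ih p (h.tb _ _ t s)

omit h in
lemma p_dn (p : Pos X a i x) (e : j ≤ i) : ∃ w, Pos X a j w := by
  induction i generalizing x with
  | zero => exact ⟨x, by rwa [Nat.le_zero.1 e]⟩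
  | succ i ih =>
    rcases e.lt_or_eq with e | rfl
    · obtain ⟨w, p, -⟩ := p; exact ih p (by omega)
    · exact ⟨x, p⟩

lemma p_la (p : Pos X a i z) (l : (1, [z]) ∈ X) (q : Pos X a j x) : j ≤ i := by
  by_contra! hc
  obtain ⟨w, v, p', s⟩ := p_dn (j := i + 1) q hc
  exact h.b1 _ _ (h.cl _ _ l (h.p_un p p')) s

lemma p_su (p : Pos X a i x) (q : Pos X a (i + 1) y) : (2, [x, y]) ∈ X := by
  obtain ⟨w, q, s⟩ := q
  exact h.c1 _ _ _ s (h.p_un q p)

end Base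

lemma Pos.mono {X Y : Set At} (h : ∀ R ≤ 5, ∀ t, (R, t) ∈ X → (R, t) ∈ Y) {a i x : ℕ}
    (p : Pos X a i x) : Pos Y a i x := by
  induction i generalizing x with
  | zero => exact h _ (by omega) _ p
  | succ i ih => obtain ⟨w, p, s⟩ := p; exact ⟨w, ih p, h _ (by omega) _ s⟩

lemma map_nu {k j : ℕ} {v : List ℕ} (h : v.length = k) : (List.range k).map (nu k j v) = v := by
  refine List.ext_getElem (by simp [h]) fun i h1 h2 => ?_
  simp [nu, ← h, h2]

lemma no_T {M : GM} (hM : M.WF) {e : ℕ} {X : Set At} (hX : Mod (GA M e) X) {a N z : ℕ}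
    (ha : (0, [a]) ∈ X) (p : Pos X a N z) (l : (1, [z]) ∈ X) (hD : M.D e N) : (7, [a]) ∉ X := by
  intro hT
  obtain ⟨h0, h, h2, h3, -⟩ := mod_GA.1 hX
  have hk := hM.k
  have hx : ∀ i, ∃ w, i ≤ N → Pos X a i w := fun i => by
    by_cases hi : i ≤ N
    · exact (Base.p_dn p hi).imp fun _ h _ => h
    · exact ⟨0, fun h => absurd h hi⟩
  choose x hx using hx
  have su : ∀ i < N, (2, [x i, x (i + 1)]) ∈ X := fun i hi => h.p_su (hx i hi.le) (hx _ hi)
  have f0 : (0, [x 0]) ∈ X := h.c0 _ _ ha (hx 0 (by omega))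
  have key : ∀ n, e + n ≤ N → (8 + (M.cfg e n).1, (M.cfg e n).2.map x) ∈ X := by
    intro n
    induction n with
    | zero =>
      intro hn
      have := h0 x (by
        simp only [sr, List.forall_mem_cons, List.forall_mem_map, List.mem_range, ins, List.map_cons,
          List.map_nil]
        exact ⟨h.c7 _ _ hT (hx 0 (by omega)), f0, fun i hi => su i (by omega)⟩)
      simpa [sr, ins, GM.cfg] using this
    | succ n ih =>
      intro hn
      obtain ⟨a1, a2, a3, a4⟩ := GM.inv hM e n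
      have a5 := hM.rg _ a1
      have a6 := a4 (M.rg (M.cfg e n).1)
      rw [M.cfg_succ]
      have := h2 _ (mem_G2.2 ⟨_, a1, decide ((M.cfg e n).2.getD (M.rg (M.cfg e n).1) 0 = 0), rfl⟩)
        (x ∘ nu M.k (M.rg (M.cfg e n).1) (M.cfg e n).2) (by
          simp only [mr, List.forall_mem_cons, ins, ← List.map_map, map_nu a2, List.not_mem_nil,
            IsEmpty.forall_iff, implies_true, and_true]
          refine ⟨ih (by omega), ?_, ?_, ?_⟩
          · simp only [List.map_cons, List.map_nil, nu, if_pos (show 0 < M.k by omega), lt_irrefl,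
              if_false, if_true]
            exact su _ (by omega)
          · simp only [List.map_cons, List.map_nil, nu, if_pos a5]
            rw [if_neg (by omega), if_neg (by omega), if_pos trivial]
            exact su _ (by omega)
          · split_ifs with hb
            · simp only [List.map_cons, List.map_nil, nu, if_pos a5]
              rw [of_decide_eq_true hb]; exact f0
            · simp only [List.map_cons, List.map_nil, nu, if_pos a5]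
              rw [if_neg (by omega), if_neg (by omega), if_neg (by omega)]
              have := su ((M.cfg e n).2.getD (M.rg (M.cfg e n).1) 0 - 1) (by omega)
              rwa [Nat.sub_add_cancel (by simp only [decide_eq_true_eq] at hb; omega)] at this)
      simpa only [mr, List.mem_singleton, exists_eq_left, ins, ← List.map_map, GM.step] using this
  obtain ⟨a1, a2, a3, a4⟩ := GM.inv hM e (N - e)
  have hN := hD.1
  have := h3 _ (mem_B2.2 ⟨_, a1, hD.2, rfl⟩) (x ∘ nu M.k 0 (M.cfg e (N - e)).2) (by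
    simp only [br, List.forall_mem_cons, ins, ← List.map_map, map_nu a2, List.not_mem_nil,
      IsEmpty.forall_iff, implies_true, and_true]
    refine ⟨key _ (by omega), ?_⟩
    simp only [List.map_cons, List.map_nil, nu, if_pos (show 0 < M.k by omega), a3]
    rw [show e + (N - e) = N by omega]
    exact h.cl _ _ l (h.p_un p (hx N le_rfl)))
  simp [br] at this

def Col (F : Set At) (P : ℕ → ℕ → Prop) (w : ℕ → Bool) : Prop :=
  (∀ i y, P i y → (6, [y]) ∈ F → w i = true) ∧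
    ∀ i j k x y z, P i x → P j y → P k z → (5, [x, y, z]) ∈ F → nae (w i) (w j) (w k) = true

def Fa (M : GM) (e : ℕ) (F : Set At) (a : ℕ) : Prop :=
  (0, [a]) ∈ F ∧ ∃ N z, Pos F a N z ∧ (1, [z]) ∈ F ∧ M.D e N

lemma fwd {M : GM} (hM : M.WF) {e : ℕ} {X F : Set At} (hX : Mod (GA M e) X) (hF : F ⊆ X) {a : ℕ}
    (ha : Fa M e F a) : (7, [a]) ∉ F ∧ ∃ w, Col F (Pos F a) w := by
  classical
  obtain ⟨ha, N, z, p, l, hD⟩ := ha
  have mo : ∀ {i x}, Pos F a i x → Pos X a i x := Pos.mono fun _ _ _ h => hF h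
  have hT := no_T hM hX (hF ha) (mo p) (hF l) hD
  obtain ⟨-, h, -, -, hN⟩ := mod_GA.1 hX
  refine ⟨fun h => hT (hF h), fun i => decide (∃ y, Pos X a i y ∧ (6, [y]) ∈ X),
    fun i y p c => decide_eq_true ⟨y, mo p, hF c⟩, fun i j k x y z p q r E => ?_⟩
  have c : ∀ {i x}, Pos F a i x → ((∃ y, Pos X a i y ∧ (6, [y]) ∈ X) ↔ (6, [x]) ∈ X) := fun p =>
    ⟨fun ⟨_, q, c⟩ => h.c6 _ _ c (h.p_un q (mo p)), fun c => ⟨_, mo p, c⟩⟩
  simp only [c p, c q, c r]
  rcases hN x y z (hF E) with (t | t | t) | t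
  · exact absurd (h.p_T (mo p) t) hT
  · exact absurd (h.p_T (mo q) t) hT
  · exact absurd (h.p_T (mo r) t) hT
  · by_cases (6, [x]) ∈ X <;> by_cases (6, [y]) ∈ X <;> by_cases (6, [z]) ∈ X <;> simp_all [nae]

lemma bwd {M : GM} (hM : M.WF) {e : ℕ} {F : Set At} (h : Base F) (h2 : Mod (G2 M) F)
    (h3 : Mod (B2 M) F) (hH : ∀ a, Fa M e F a → (7, [a]) ∉ F ∧ ∃ w, Col F (Pos F a) w) :
    ∃ X, Mod (GA M e) X ∧ F ⊆ X := by
  have hk := hM.k
  let W : (ℕ → ℕ → Prop) → ℕ → Bool := fun P => Classical.epsilon (Col F P)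
  have hW : ∀ a, Fa M e F a → Col F (Pos F a) (W (Pos F a)) := fun a ha =>
    Classical.epsilon_spec (hH a ha).2
  let Fo : ℕ → Prop := fun y => ∃ a i, Fa M e F a ∧ Pos F a i y
  let X : Set At := {p | p ∈ F ∨ (p.1 = 7 ∧ ∃ y, p.2 = [y] ∧ ¬ Fo y) ∨
    (p.1 = 6 ∧ ∃ y a i, p.2 = [y] ∧ Fa M e F a ∧ Pos F a i y ∧ W (Pos F a) i = true) ∨
    ∃ a n, (0, [a]) ∈ F ∧ ¬ Fa M e F a ∧ p.1 = 8 + (M.cfg e n).1 ∧
      ∀ i < M.k, Pos F a ((M.cfg e n).2.getD i 0) (p.2.getD i 0)}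
  have m5 : ∀ R ≤ 5, ∀ t, (R, t) ∈ X ↔ (R, t) ∈ F := fun R hR t =>
    ⟨fun hh => by
      rcases hh with hh | ⟨hh, -⟩ | ⟨hh, -⟩ | ⟨_, _, -, -, hh, -⟩
      · exact hh
      all_goals simp only at hh; omega, Or.inl⟩
  have m0 := m5 0 (by omega)
  have m1 := m5 1 (by omega)
  have m2 := m5 2 (by omega)
  have m3 := m5 3 (by omega)
  have m4 := m5 4 (by omega)
  have m5 := m5 5 (by omega)
  have m7 : ∀ y, (7, [y]) ∈ X ↔ (7, [y]) ∈ F ∨ ¬ Fo y := fun y =>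
    ⟨fun hh => by
      rcases hh with hh | ⟨-, _, hh, h'⟩ | ⟨hh, -⟩ | ⟨_, _, -, -, hh, -⟩
      · exact Or.inl hh
      · exact Or.inr (by rwa [(List.cons.inj hh).1])
      all_goals simp only at hh; omega,
    fun hh => hh.elim Or.inl fun hh => Or.inr (Or.inl ⟨rfl, y, rfl, hh⟩)⟩
  have m6 : ∀ y, (6, [y]) ∈ X ↔ (6, [y]) ∈ F ∨
      ∃ a i, Fa M e F a ∧ Pos F a i y ∧ W (Pos F a) i = true := fun y =>
    ⟨fun hh => by
      rcases hh with hh | ⟨hh, -⟩ | ⟨-, _, a, i, hh, h'⟩ | ⟨_, _, -, -, hh, -⟩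
      · exact Or.inl hh
      · simp only at hh; omega
      · exact Or.inr ⟨a, i, by rwa [(List.cons.inj hh).1]⟩
      · simp only at hh; omega,
    fun hh => hh.elim Or.inl fun ⟨a, i, hh⟩ => Or.inr (Or.inr (Or.inl ⟨rfl, y, a, i, rfl, hh⟩))⟩
  have m8 : ∀ s t, (8 + s, t) ∈ X ↔ (8 + s, t) ∈ F ∨ ∃ a n, (0, [a]) ∈ F ∧ ¬ Fa M e F a ∧
      s = (M.cfg e n).1 ∧ ∀ i < M.k, Pos F a ((M.cfg e n).2.getD i 0) (t.getD i 0) := fun s t =>
    ⟨fun hh => by
      rcases hh with hh | ⟨hh, -⟩ | ⟨hh, -⟩ | ⟨a, n, b, c, hh, d⟩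
      · exact Or.inl hh
      · simp only at hh; omega
      · simp only at hh; omega
      · exact Or.inr ⟨a, n, b, c, by simp only at hh; omega, d⟩,
    fun hh => hh.elim Or.inl fun ⟨a, n, b, c, hh, d⟩ =>
      Or.inr (Or.inr (Or.inr ⟨a, n, b, c, by rw [hh], d⟩))⟩
  have c6 : ∀ {a i y}, Fa M e F a → Pos F a i y → ((6, [y]) ∈ X ↔ W (Pos F a) i = true) := by
    intro a i y ha p
    rw [m6]
    refine ⟨?_, fun hh => Or.inr ⟨a, i, ha, p, hh⟩⟩
    rintro (hh | ⟨b, j, hb, q, hh⟩)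
    · exact (hW a ha).1 i y p hh
    · rwa [h.p_inj ha.1 hb.1 p q, h.p_ext ha.1 hb.1 (h.st _ _ _ (h.p_S p) (h.ss _ _ (h.p_S q)))]
  have gd : ∀ (l : List ℕ) (s : ℕ → ℕ), l.length = M.k → ∀ i < M.k,
      (l.map s).getD i 0 = s (l.getD i 0) := fun l s hl i hi => getD_map_lt s (hl ▸ hi)
  have gr : ∀ i < M.k, (List.range M.k).getD i 0 = i := fun i hi => by simp [hi]
  refine ⟨X, mod_GA.2 ⟨fun s hb => ?_, ?_, fun c hc s hb => ?_, fun c hc s hb => ?_,
    fun x y z E => ?_⟩, fun _ => Or.inl⟩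
  · simp only [sr, List.forall_mem_cons, List.forall_mem_map, List.mem_range, ins, List.map_cons,
      List.map_nil, m0, m2, m7] at hb
    obtain ⟨b1, b2, b3⟩ := hb
    have hp : ∀ i ≤ e, Pos F (s 0) i (s i) := fun i => by
      induction i with
      | zero => exact fun _ => h.rf _ b2
      | succ i ih => exact fun hi => ⟨_, ih (by omega), b3 i hi⟩
    refine ⟨_, List.mem_singleton_self _, (m8 0 _).2 (Or.inr ⟨s 0, 0, b2, fun ha => b1.elim
      (hH _ ha).1 fun hh => hh ⟨_, 0, ha, hp 0 (by omega)⟩, rfl, fun i hi => ?_⟩)⟩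
    exact (gd _ s (GM.inv hM e 0).2.1 i hi).symm ▸ hp _ ((GM.inv hM e 0).2.2.2 i)
  · constructor <;> simp only [m0, m1, m2, m3, m4, m5, m6, m7]
    exacts [h.rf, h.sy, h.tr, h.f1, h.f2, h.c1, h.c2, h.c0, h.cl,
      fun x y hx e => hx.imp (fun hx => h.c6 _ _ hx e) fun ⟨a, i, b, p, c⟩ => ⟨a, i, b, h.p_eq p e, c⟩,
      fun x y hx e => hx.imp (fun hx => h.c7 _ _ hx e) fun hx ⟨a, i, b, p⟩ =>
        hx ⟨a, i, b, h.p_eq p (h.sy _ _ e)⟩,
      fun x y hx e => hx.imp (fun hx => h.tb _ _ hx e) fun hx ⟨a, i, b, p⟩ => hx ⟨a, i + 1, b, _, p, e⟩,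
      h.s2, h.s3, h.ss, h.st, h.e1, h.e2, h.mg, h.b0, h.b1]
  · obtain ⟨q, hq, b, rfl⟩ := mem_G2.1 hc
    refine ⟨_, List.mem_singleton_self _, (m8 _ _).2 ?_⟩
    have hb4 : ins s (if b then (0, [M.rg q]) else (2, [M.k + 2, M.rg q])) ∈ F := by
      have := hb (if b then (0, [M.rg q]) else (2, [M.k + 2, M.rg q])) (by simp [mr])
      cases b
      · exact (m2 _).1 this
      · exact (m0 _).1 this
    simp only [mr, List.forall_mem_cons, ins, m2, m8] at hb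
    obtain ⟨b1, b2, b3, -⟩ := hb
    rcases b1 with b1 | ⟨a, n, a1, a2, rfl, a4⟩
    · have := h2 _ hc s (by
        simp only [mr, List.forall_mem_cons, List.not_mem_nil, IsEmpty.forall_iff, implies_true,
          and_true]
        exact ⟨b1, b2, b3, hb4⟩)
      exact Or.inl (by simpa [mr, ins] using this)
    · have a5 : ∀ i < M.k, Pos F a ((M.cfg e n).2.getD i 0) (s i) := fun i hi => by
        have := a4 i hi
        rwa [gd _ _ (by simp) i hi, gr i hi] at this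
      have a6 := a5 _ (hM.rg _ hq)
      have a7 : decide ((M.cfg e n).2.getD (M.rg (M.cfg e n).1) 0 = 0) = b := by
        cases b
        · obtain ⟨j, hj, -⟩ := h.p_pr a1 a6 hb4
          simp only [hj]; rfl
        · exact decide_eq_true (h.p_fi a6 hb4)
      refine Or.inr ⟨a, n + 1, a1, a2, by rw [M.cfg_succ, GM.step, a7], fun i hi => ?_⟩
      rw [M.cfg_succ, GM.step, a7, gd _ _ (hM.len _ _) i hi, gd _ _ (hM.len _ _) i hi]
      have hm : (M.hd (M.cfg e n).1 b).getD i 0 ∈ M.hd (M.cfg e n).1 b := by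
        simp [hM.len, hi]
      have := hM.lt _ _ _ hm
      generalize (M.hd (M.cfg e n).1 b).getD i 0 = j at *
      unfold nu
      split_ifs with c1 c2 c3
      · exact a5 j c1
      · exact ⟨_, a5 0 (by omega), c2 ▸ b2⟩
      · exact ⟨_, a6, c3 ▸ b3⟩
      · obtain rfl : j = M.k + 2 := by omega
        cases b
        · obtain ⟨j, hj, p⟩ := h.p_pr a1 a6 hb4
          rwa [hj]
        · exact absurd hm (hM.zero _)
  · obtain ⟨q, hq, b, rfl⟩ := mem_B2.1 hc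
    simp only [br, List.forall_mem_cons, ins, m1, m8] at hb
    obtain ⟨b1, b2, -⟩ := hb
    rcases b1 with b1 | ⟨a, n, a1, a2, rfl, a4⟩
    · obtain ⟨_, hh, -⟩ := h3 _ hc s (by
        simp only [br, List.forall_mem_cons, List.not_mem_nil, IsEmpty.forall_iff, implies_true,
          and_true]
        exact ⟨b1, b2⟩)
      simp [br] at hh
    · have := a4 0 (by omega)
      rw [gd _ _ (by simp) 0 (by omega), gr 0 (by omega), (GM.inv hM e n).2.2.1] at this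
      exact absurd ⟨a1, _, _, this, b2, by omega, by rwa [Nat.add_sub_cancel_left]⟩ a2
  · simp only [m7]
    rw [m5] at E
    by_cases hx : Fo x ∧ Fo y ∧ Fo z
    · obtain ⟨⟨a, i, ha, p⟩, ⟨b, j, hb, q⟩, ⟨c, k, hc, r⟩⟩ := hx
      rw [← h.p_ext ha.1 hb.1 (h.st _ _ _ (h.st _ _ _ (h.p_S p) (h.e1 _ _ _ E))
        (h.ss _ _ (h.p_S q)))] at q
      rw [← h.p_ext ha.1 hc.1 (h.st _ _ _ (h.st _ _ _ (h.p_S p) (h.e2 _ _ _ E))
        (h.ss _ _ (h.p_S r)))] at r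
      have := (hW a ha).2 _ _ _ _ _ _ p q r E
      rw [c6 ha p, c6 ha q, c6 ha r]
      right
      revert this
      cases W (Pos F a) i <;> cases W (Pos F a) j <;> cases W (Pos F a) k <;> simp [nae]
    · left; tauto

end Pool.Agent.H.MP_9e35a6_lc
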