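import Pool.Agent.Lib.lead.CXDefs

set_option autoImplicit false

namespace Pool.Agent.H.MP_9e35a6_lc

/-- structures on V for the relation symbols 0,…,σ-1 with arities ar: sets of well-formed facts -/
def Str (σ : ℕ) (ar : ℕ → ℕ) (V : Type) : Type :=
  {X : Set (ℕ × List V) // ∀ p ∈ X, p.1 < σ ∧ p.2.length = ar p.1}

variable {σ : ℕ} {ar : ℕ → ℕ} {V W : Type}

def Hom (X : Str σ ar V) (Y : Str σ ar W) (h : V → W) : Prop :=
  ∀ p ∈ X.1, (p.1, p.2.map h) ∈ Y.1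

def Emb (X : Str σ ar V) (Y : Str σ ar W) (h : V → W) : Prop :=
  Function.Injective h ∧ ∀ p : ℕ × List V, p ∈ X.1 ↔ (p.1, p.2.map h) ∈ Y.1

def FinBounded (A : Str σ ar V) : Prop :=
  ∃ F : Set (Σ n : ℕ, Str σ ar (Fin n)), F.Finite ∧ ∀ (n : ℕ) (B : Str σ ar (Fin n)),
    (∃ h, Emb B A h) ↔ ∀ X ∈ F, ¬ ∃ h, Emb X.2 B h

/-- the finite structure coded by a unary domain size and a list of facts -/
def toStr (σ : ℕ) (ar : ℕ → ℕ) (a : List Unit × List (ℕ × List ℕ)) : Str σ ar (Fin a.1.length) :=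
  ⟨{p | (p.1 < σ ∧ p.2.length = ar p.1) ∧ (p.1, p.2.map Fin.val) ∈ a.2}, fun _ h => h.1⟩

def CSP (A : Str σ ar V) (a : List Unit × List (ℕ × List ℕ)) : Prop :=
  ∃ h, Hom (toStr σ ar a) A h

end Pool.Agent.H.MP_9e35a6_lc
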