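import Pool.Agent.H.MP_9e35a6_lc.A
import Pool.Agent.H.MP_9e35a6_lc.D

set_option autoImplicit false

namespace Pool.Agent.H.MP_9e35a6_lc

open Pool.Agent.Lib.CX Function

def ly (F : List At) (u : List Unit) (h : List Bool) (a i : ℕ) : List ℕ :=
  (fun L : List ℕ => (List.range u.length).filter fun y => L.any fun x =>
    decide ((2, [x, y]) ∈ F))^[min i h.length]
    ((List.range u.length).filter fun y => decide ((3, [a, y]) ∈ F))

lemma pt_ly' : PT fun p : List At × List Unit × List Bool × ℕ × ℕ =>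
    ly p.1 p.2.1 p.2.2.1 p.2.2.2.1 p.2.2.2.2 := by
  refine PT.iterate (F := fun (p : List At × List Unit × List Bool × ℕ × ℕ) (L : List ℕ) =>
    (List.range p.2.1.length).filter fun y => L.any fun x => decide ((2, [x, y]) ∈ p.1))
    (B := fun p => size (List.range p.2.1.length)) (by fun_prop) (by fun_prop) (by fun_prop)
    (PB.mono (g := fun p => p.2.2.1.length) (by fun_prop) fun _ => min_le_right _ _) (by fun_prop)
    fun p k _ => ?_
  cases k with
  | zero => exact size_sublist List.filter_sublist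
  | succ k => rw [iterate_succ_apply']; exact size_sublist List.filter_sublist

@[fun_prop] lemma pt_ly {α : Type} [Enc α] {F : α → List At} {u : α → List Unit}
    {h : α → List Bool} {a i : α → ℕ} (hF : PT F) (hu : PT u) (hh : PT h) (ha : PT a) (hi : PT i) :
    PT fun x => ly (F x) (u x) (h x) (a x) (i x) :=
  pt_ly'.comp (hF.pair (hu.pair (hh.pair (ha.pair hi))))

lemma mem_ly {F : List At} {u : List Unit} (hF : ∀ p ∈ F, ∀ x ∈ p.2, x < u.length) {h : List Bool}
    {a i y : ℕ} (hi : i ≤ h.length) : y ∈ ly F u h a i ↔ Pos {p | p ∈ F} a i y := by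
  rw [ly, min_eq_left hi]
  clear hi
  induction i generalizing y with
  | zero =>
    simp only [iterate_zero, id, List.mem_filter, List.mem_range, decide_eq_true_eq, Pos]
    exact ⟨fun h => h.2, fun h => ⟨hF _ h y (by simp), h⟩⟩
  | succ i ih =>
    simp only [iterate_succ_apply', List.mem_filter, List.mem_range, List.any_eq_true,
      decide_eq_true_eq, Pos, ih]
    exact ⟨fun h => h.2, fun ⟨x, p, h⟩ => ⟨hF _ h y (by simp), x, p, h⟩⟩

def col1 (F : List At) (L : List (List ℕ)) (w : List Bool) : Bool :=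
  (List.range L.length).all fun i => (L.getD i []).all fun y =>
    !decide ((6, [y]) ∈ F) || w.getD i false

def col3 (F : List At) (A B C : List ℕ) : Bool :=
  A.any fun x => B.any fun y => C.any fun z => decide ((5, [x, y, z]) ∈ F)

@[fun_prop] lemma pt_col3 {α : Type} [Enc α] {F : α → List At} {A B C : α → List ℕ}
    (hF : PT F) (hA : PT A) (hB : PT B) (hC : PT C) : PT fun x => col3 (F x) (A x) (B x) (C x) :=
  PT.comp (f := fun p : List At × List ℕ × List ℕ × List ℕ => col3 p.1 p.2.1 p.2.2.1 p.2.2.2)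
    (by unfold col3; fun_prop) (hF.pair (hA.pair (hB.pair hC)))

def col2 (F : List At) (L : List (List ℕ)) (w : List Bool) : Bool :=
  (List.range L.length).all fun i => (List.range L.length).all fun j =>
    (List.range L.length).all fun k => !col3 F (L.getD i []) (L.getD j []) (L.getD k []) ||
      nae (w.getD i false) (w.getD j false) (w.getD k false)

attribute [local irreducible] col3 ly in
@[fun_prop] lemma pt_col {α : Type} [Enc α] {F : α → List At} {L : α → List (List ℕ)}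
    {w : α → List Bool} (hF : PT F) (hL : PT L) (hw : PT w) :
    PT fun x => col1 (F x) (L x) (w x) && col2 (F x) (L x) (w x) :=
  PT.comp (f := fun p : List At × List (List ℕ) × List Bool =>
    col1 p.1 p.2.1 p.2.2 && col2 p.1 p.2.1 p.2.2)
    (by unfold col1 col2 nae; fun_prop) (hF.pair (hL.pair hw))

def gk1 (W : List (List Bool)) (h : List Bool) (F : List At) (a : ℕ) (L : List (List ℕ)) : Bool :=
  (List.range h.length).all fun N => !(h.getD N false && (L.getD N []).any fun z =>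
    decide ((1, [z]) ∈ F)) || (!decide ((7, [a]) ∈ F) && W.any fun w => col1 F L w && col2 F L w)

lemma pt_gk1 : PT fun p : (List (List Bool) × List Bool × List At) × ℕ × List (List ℕ) =>
    gk1 p.1.1 p.1.2.1 p.1.2.2 p.2.1 p.2.2 := by
  unfold gk1
  refine PT.all (PT.or (by fun_prop) (PT.and (by fun_prop) (PT.any (pt_col ?_ ?_ ?_) ?_))) ?_
  all_goals fun_prop

def gk (W : List (List Bool)) (h : List Bool) (u : List Unit) (F : List At) : Bool :=
  (List.range u.length).all fun a => !decide ((0, [a]) ∈ F) ||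
    gk1 W h F a ((List.range h.length).map (ly F u h a))

attribute [local irreducible] ly in
lemma pt_gk : PT fun p : List (List Bool) × List Bool × List Unit × List At =>
    gk p.1 p.2.1 p.2.2.1 p.2.2.2 := by
  unfold gk
  refine PT.all (PT.or (by fun_prop) (pt_gk1.comp (g := fun q : (List (List Bool) × List Bool ×
    List Unit × List At) × ℕ => ((q.1.1, q.1.2.1, q.1.2.2.2), q.2, (List.range q.1.2.1.length).map
      (ly q.1.2.2.2 q.1.2.2.1 q.1.2.1 q.2))) ?_)) ?_
  all_goals fun_prop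

def gA (M : GM) (v : ℕ) (p : (List (List Bool) × List Bool) × In) : Bool :=
  chk (B1 ++ B2 M) (v + 1) p.2.1 (clo (8 + M.ns) (arf M.k) (G1 ++ G2 M) (v + 1) p.2) &&
    gk p.1.1 p.1.2 p.2.1 (clo (8 + M.ns) (arf M.k) (G1 ++ G2 M) (v + 1) p.2)

lemma pt_gA (M : GM) (v : ℕ) : PT (gA M v) := by
  have h := (pt_clo (σ := 8 + M.ns) (ar := arf M.k) (Γ := G1 ++ G2 M) (v + 1)).comp
    (PT.snd' (α := List (List Bool) × List Bool))
  exact (pt_chk PT.snd'.fst h).and (pt_gk.comp (PT.fst'.fst.pair (PT.fst'.snd.pair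
    (PT.snd'.fst.pair h))))

lemma gk_iff {W : List (List Bool)} {h : List Bool} {u : List Unit} {F : List At}
    (hF : ∀ p ∈ F, ∀ x ∈ p.2, x < u.length) : gk W h u F = true ↔ ∀ a, (0, [a]) ∈ F →
      ∀ N < h.length, h.getD N false = true → (∃ z, Pos {p | p ∈ F} a N z ∧ (1, [z]) ∈ F) →
        (7, [a]) ∉ F ∧ ∃ w ∈ W, Col {p | p ∈ F} (fun i y => i < h.length ∧ Pos {p | p ∈ F} a i y)
          (fun i => w.getD i false) := by
  have e : ∀ a, ∀ i < h.length, ∀ y, y ∈ ((List.range h.length).map (ly F u h a)).getD i [] ↔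
      Pos {p | p ∈ F} a i y := fun a i hi y => by
    rw [← mem_ly hF hi.le]; simp [hi]
  simp only [gk, gk1, col1, col2, col3, List.all_eq_true, List.mem_range, Bool.or_eq_true,
    Bool.not_eq_true', ← Bool.not_eq_true, decide_eq_true_eq, Bool.and_eq_true, List.any_eq_true,
    ← imp_iff_not_or, List.length_map, List.length_range, Col, Set.mem_ofPred_eq]
  refine forall_congr' fun a => ⟨fun H ha N hN h1 ⟨z, z1, z2⟩ => ?_, fun H _ ha N hN h1 => ?_⟩
  · obtain ⟨a1, w, a2, a3, a4⟩ := H (hF _ ha a (by simp)) ha N hN ⟨h1, z, (e a N hN z).2 z1, z2⟩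
    exact ⟨a1, w, a2, fun i y p => a3 i p.1 y ((e a i p.1 y).2 p.2), fun i j k x y z p q r E =>
      a4 i p.1 j q.1 k r.1 ⟨x, (e a i p.1 x).2 p.2, y, (e a j q.1 y).2 q.2, z, (e a k r.1 z).2 r.2, E⟩⟩
  · obtain ⟨h1, z, z1, z2⟩ := h1
    obtain ⟨a1, w, a2, a3, a4⟩ := H ha N hN h1 ⟨z, (e a N hN z).1 z1, z2⟩
    exact ⟨a1, w, a2, fun i hi y p => a3 i y ⟨hi, (e a i hi y).1 p⟩,
      fun i hi j hj k hk ⟨x, p, y, q, z, r, E⟩ => a4 i j k x y z ⟨hi, (e a i hi x).1 p⟩
        ⟨hj, (e a j hj y).1 q⟩ ⟨hk, (e a k hk z).1 r⟩ E⟩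

lemma pos_lt {F : Set At} (h : Base F) {n : ℕ} (hF : ∀ p ∈ F, ∀ x ∈ p.2, x < n) {a N z : ℕ}
    (ha : (0, [a]) ∈ F) (p : Pos F a N z) : N < n := by
  have hx : ∀ i, ∃ w, i ≤ N → Pos F a i w := fun i => by
    by_cases hi : i ≤ N
    · exact (Base.p_dn p hi).imp fun _ h _ => h
    · exact ⟨0, fun h => absurd h hi⟩
  choose x hx using hx
  have := Finset.card_le_card_of_injOn (s := Finset.range (N + 1)) (t := Finset.range n) x
    (fun i hi => by
      have := hx i (by simpa [Nat.lt_succ_iff] using hi)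
      rw [Finset.coe_range, Set.mem_Iio]
      cases i with
      | zero => exact hF _ this _ (by simp)
      | succ i => obtain ⟨_, -, s⟩ := this; exact hF _ s _ (by simp))
    fun i hi j hj e => h.p_inj ha ha (hx i (by simpa [Nat.lt_succ_iff] using hi))
      (e ▸ hx j (by simpa [Nat.lt_succ_iff] using hj))
  simpa using this

lemma char {M : GM} (hM : M.WF) {v : ℕ} (v1 : Vb (v + 1) (G1 ++ G2 M)) (v2 : Vb (v + 1) (B1 ++ B2 M))
    {e : ℕ} {h : List Bool} {a : In} (h1 : ∀ N < h.length, h.getD N false = true ↔ M.D e N)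
    (h2 : ∀ N, h.length ≤ N → N < a.1.length → ¬ M.D e N) :
    CSP (UA (8 + M.ns) (arf M.k) (GA M e)) a ↔ gA M v ((av h.length, h), a) = true := by
  obtain ⟨c1, c2, c3, c4⟩ := clo_spec (arf_pos hM) (gd_G0 hM) (horn_G0 M) v1 a
  simp only [gA, Bool.and_eq_true, chk_iff v2]
  generalize clo (8 + M.ns) (arf M.k) (G1 ++ G2 M) (v + 1) a = F at *
  have hF : ∀ p ∈ F, ∀ x ∈ p.2, x < a.1.length := fun p hp => (c1 p hp).2.2
  rw [gk_iff hF]
  constructor
  · intro H
    obtain ⟨X, x1, x2⟩ := of_csp (arf_pos hM) (gd_GA hM e) H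
    have x3 : {p | p ∈ F} ⊆ X := c4 X (fun c hc => x1 c
      (by simp only [GA, List.mem_cons, List.mem_append] at hc ⊢; tauto)) x2
    refine ⟨fun c hc s _ hb => ?_, fun b hb N hN hD ⟨z, z1, z2⟩ => ?_⟩
    · obtain ⟨d, hd, -⟩ := x1 c (by simp only [GA, List.mem_cons, List.mem_append] at hc ⊢; tauto) s
        fun d hd => x3 (hb d hd)
      rcases List.mem_append.1 hc with hc | hc
      · rw [(by decide : ∀ c ∈ B1, c.2 = []) c hc] at hd; simp at hd
      · obtain ⟨q, -, -, rfl⟩ := mem_B2.1 hc; simp [br] at hd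
    · obtain ⟨t, w, w1, w2⟩ := fwd hM x1 x3 ⟨hb, N, z, z1, z2, (h1 N hN).1 hD⟩
      have e : ∀ i < h.length, ((List.range h.length).map w).getD i false = w i := fun i hi => by
        simp [hi]
      refine ⟨t, (List.range h.length).map w, mem_av.2 (by simp), fun i y p c => ?_,
        fun i j k x y z p q r E => ?_⟩
      · exact (e i p.1).trans (w1 i y p.2 c)
      · simp only [e i p.1, e j q.1, e k r.1]; exact w2 i j k x y z p.2 q.2 r.2 E
  · rintro ⟨H1, H2⟩
    have H1 := mod_append.1 (mod_of_on (arf_pos hM) (gd_GB hM) hF H1)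
    have c3 := mod_append.1 c3
    have hb := base_iff.1 ⟨c3.1, H1.1⟩
    obtain ⟨X, x1, x2⟩ := bwd hM (e := e) hb c3.2 H1.2 fun b ⟨b1, N, z, z1, z2, z3⟩ => by
      have hN : N < h.length := not_le.1 fun hh => h2 N hh (pos_lt hb hF b1 z1) z3
      obtain ⟨t, w, -, w1, w2⟩ := H2 b b1 N hN ((h1 N hN).2 z3) ⟨z, z1, z2⟩
      have l : ∀ {i y}, Pos {p | p ∈ F} b i y → i < h.length ∧ Pos {p | p ∈ F} b i y := fun p =>
        ⟨(hb.p_la z1 z2 p).trans_lt hN, p⟩
      exact ⟨t, _, fun i y p => w1 i y (l p), fun i j k x y z p q r => w2 i j k x y z (l p) (l q) (l r)⟩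
    exact csp_of (arf_pos hM) (gd_GA hM e) (fun c hc s _ => x1 c hc s) fun p hp hw => x2 (c2 p hp hw)

def rho (u : List Bool) (φ : List (T3 ℕ)) : In :=
  (List.replicate (u.length + 3 * φ.length + 1) (), (0, [0]) :: (1, [u.length + 3 * φ.length]) ::
    (((List.range (u.length + 3 * φ.length)).map fun i => (2, [i, i + 1])) ++
      φ.map fun C => (5, [C.1, C.2.1, C.2.2])))

lemma rho_iff {M : GM} (hM : M.WF) {e : ℕ} {u : List Bool} {φ : List (T3 ℕ)}
    (hφ : ∀ C ∈ φ, ∀ x ∈ C.vars, x < 3 * φ.length) (hD : M.D e (u.length + 3 * φ.length)) :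
    CSP (UA (8 + M.ns) (arf M.k) (GA M e)) (rho u φ) ↔ SatR nae φ := by
  have hφ' : ∀ C ∈ φ, C.1 < 3 * φ.length ∧ C.2.1 < 3 * φ.length ∧ C.2.2 < 3 * φ.length := by
    simpa [T3.vars] using hφ
  constructor
  · intro H
    obtain ⟨X, x1, x2⟩ := of_csp (arf_pos hM) (gd_GA hM e) H
    have h0 : (0, [0]) ∈ X := x2 _ (by simp [rho]) (by simp [wf, arf, rho])
    have hp : ∀ i ≤ u.length + 3 * φ.length, Pos X 0 i i := fun i => by
      induction i with
      | zero => exact fun _ => (mod_GA.1 x1).2.1.rf _ h0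
      | succ i ih => exact fun hi => ⟨i, ih (by omega), x2 _ (by simp [rho]; omega)
          (by simp [wf, arf, rho]; omega)⟩
    obtain ⟨-, w, -, hw⟩ := fwd hM x1 subset_rfl ⟨h0, _, _, hp _ le_rfl,
      x2 _ (by simp [rho]) (by simp [wf, arf, rho]; omega), hD⟩
    refine ⟨w, fun C hC => ?_⟩
    obtain ⟨a, b, c⟩ := hφ' C hC
    exact hw _ _ _ _ _ _ (hp _ (by omega)) (hp _ (by omega)) (hp _ (by omega))
      (x2 _ (by simp only [rho, List.mem_cons, List.mem_append, List.mem_map]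
                exact Or.inr (Or.inr (Or.inr ⟨C, hC, rfl⟩))) (by simp [wf, arf, rho]; omega))
  · rintro ⟨w, hw⟩
    set N := u.length + 3 * φ.length with hN
    let F : Set At := {p | p = (0, [0]) ∨ p = (1, [N]) ∨ (∃ i < N, p = (2, [i, i + 1])) ∨
      (∃ i, p = (3, [i, i])) ∨ (∃ i j, p = (4, [i, j])) ∨ ∃ C ∈ φ, p = (5, [C.1, C.2.1, C.2.2])}
    have m0 : ∀ x, (0, [x]) ∈ F ↔ x = 0 := by simp [F]
    have m1 : ∀ x, (1, [x]) ∈ F ↔ x = N := by simp [F]
    have m2 : ∀ x y, (2, [x, y]) ∈ F ↔ x < N ∧ y = x + 1 := by simp [F]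
    have m3 : ∀ x y, (3, [x, y]) ∈ F ↔ y = x := by simp [F]
    have m4 : ∀ x y, (4, [x, y]) ∈ F := by simp [F]
    have m5 : ∀ x y z, (5, [x, y, z]) ∈ F ↔ (x, y, z) ∈ φ := by simp [F]
    have m6 : ∀ R t, 6 ≤ R → (R, t) ∉ F := by
      intro R t hR; simp only [F, Set.mem_ofPred_eq, Prod.mk.injEq]
      rintro (h | h | ⟨_, -, h⟩ | ⟨_, h⟩ | ⟨_, _, h⟩ | ⟨_, -, h⟩) <;> omega
    have hp : ∀ i y, Pos F 0 i y → y = i := fun i => by
      induction i with
      | zero => exact fun y => (m3 _ _).1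
      | succ i ih => rintro y ⟨x, p, s⟩; rw [((m2 _ _).1 s).2, ih x p]
    obtain ⟨X, x1, x2⟩ := bwd hM (e := e) (F := F) (by
      constructor <;> simp only [m0, m1, m2, m3, m4, m6 6 _ le_rfl, m6 7 _ (by omega)] <;> intros <;>
        first | trivial | omega)
      (fun c hc s hb => by
        obtain ⟨q, -, b, rfl⟩ := mem_G2.1 hc
        exact absurd (hb _ List.mem_cons_self) (m6 _ _ (by simp only [ins]; omega)))
      (fun c hc s hb => by
        obtain ⟨q, -, b, rfl⟩ := mem_B2.1 hc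
        exact absurd (hb _ List.mem_cons_self) (m6 _ _ (by simp only [ins]; omega)))
      fun a ha => by
        obtain rfl := (m0 a).1 ha.1
        refine ⟨m6 _ _ (by omega), w, fun i y _ c => absurd c (m6 _ _ le_rfl),
          fun i j k x y z p q r E => ?_⟩
        rw [← hp _ _ p, ← hp _ _ q, ← hp _ _ r]
        exact hw _ ((m5 _ _ _).1 E)
    refine csp_of (arf_pos hM) (gd_GA hM e) (fun c hc s _ => x1 c hc s) fun p hp _ => x2 ?_
    simp only [rho, List.mem_cons, List.mem_append, List.mem_map, List.mem_range, ← hN] at hp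
    rcases hp with h | h | ⟨i, h, rfl⟩ | ⟨C, h, rfl⟩
    · exact Or.inl h
    · exact Or.inr (Or.inl h)
    · exact (m2 _ _).2 ⟨h, rfl⟩
    · exact (m5 _ _ _).2 h

lemma enc_tt {b : Bool} : enc b = [false, true] ↔ b = true := by
  cases b <;> simp [enc, Enc.tr, Tr.code]

theorem main (hne : ∃ A : List Bool → Prop, InNP A ∧ ¬ InP A) :
    ∃ (σ : ℕ) (ar : ℕ → ℕ) (V : Type) (A : Str σ ar V), (∀ r, 0 < ar r) ∧ Countable V ∧ FinBounded A ∧
      InNP (CSP A) ∧ ¬ InP (CSP A) ∧ ¬ NPHard (CSP A) := by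
  classical
  obtain ⟨A, hA, hA'⟩ := hne
  obtain ⟨M, hM, hgap⟩ := gm_ex
  obtain ⟨v, hv⟩ := vb_ex ((G1 ++ G2 M) ++ (B1 ++ B2 M))
  have v1 : Vb (v + 1) (G1 ++ G2 M) := fun c hc => hv.mono (Nat.le_succ v) c (List.mem_append_left _ hc)
  have v2 : Vb (v + 1) (B1 ++ B2 M) := fun c hc => hv.mono (Nat.le_succ v) c (List.mem_append_right _ hc)
  obtain ⟨g, hg⟩ := sim_ex (pt_gA M v)
  obtain ⟨f, hf, hf'⟩ := NPHard.of_nae (B := fun φ : List (T3 ℕ) => SatR nae φ ∧
    ∀ C ∈ φ, ∀ x ∈ C.vars, x < 3 * φ.length) (fun φ => if ∀ C ∈ φ, ∀ x ∈ C.vars, x < 3 * φ.length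
      then φ else []) (by unfold T3.vars; fun_prop) (fun φ h => by
        rw [if_pos fun C hC => (h C hC).2]; exact (and_iff_left fun C hC => (h C hC).2).symm) A hA
  let f' : List Bool → List (T3 ℕ) := fun x => if ∀ C ∈ f x, ∀ y ∈ C.vars, y < 3 * (f x).length
    then f x else [(0, 0, 0)]
  have f1 : PT f' := by unfold f' T3.vars; fun_prop
  have f2 : ∀ x, ∀ C ∈ f' x, ∀ y ∈ C.vars, y < 3 * (f' x).length := fun x => by
    simp only [f']; split_ifs with h
    · exact h
    · simp [T3.vars]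
  have f3 : ∀ x, A x ↔ SatR nae (f' x) := fun x => by
    rw [hf']; simp only [f']; split_ifs with h
    · exact and_iff_left h
    · exact iff_of_false (fun hh => h hh.2) (by simp [SatR, nae])
  have hs : PT fun p : List Bool × List Bool => rho p.1 (f' p.2) := by unfold rho; fun_prop
  obtain ⟨e, he⟩ := hgap _ (pr_th (pr_np hA) (pr_pt hs) g) (th_ex hA' hs g)
  have dcs : ∀ c, dc (Encodable.encode c) = c := fun c => by rw [dc, Encodable.encodek]; rfl
  refine ⟨_, _, _, UA (8 + M.ns) (arf M.k) (GA M e), arf_pos hM, inferInstance, ua_fin (arf_pos hM) (gd_GA hM e),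
    ua_np (arf_pos hM) (gd_GA hM e), fun ⟨d, d1, d2⟩ => ?_, fun H => ?_⟩
  · obtain ⟨c, hc⟩ := sim_ex d1
    obtain ⟨u, u1, m, u2, u3⟩ := he (Encodable.encode c) true
    obtain ⟨l, -, x, -, x1, x2⟩ := (u2 _ u1).1
    refine x1 ?_
    rw [dcs, hc, enc_tt, ← d2, rho_iff hM (f2 x), f3]
    refine (u3 _ (by simp) ?_).2 rfl
    have h1 := length_le_size (rho (List.replicate u false) (f' x)).1
    have h2 := size_pair (rho (List.replicate u false) (f' x)).1 (rho (List.replicate u false) (f' x)).2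
    have h3 : size (rho (List.replicate u false) (f' x)) ≤ m := x2
    simp only [Prod.mk.eta] at h2
    simp only [rho, List.length_replicate] at h1 h2 h3 ⊢
    omega
  · obtain ⟨d, d1, d2⟩ := H A hA
    obtain ⟨c, hc⟩ := sim_ex d1
    obtain ⟨u, u1, m, u2, u3⟩ := he (Encodable.encode c) false
    have hl : ((List.range u).map fun N => decide (M.D e N)).length = u := by simp
    obtain ⟨l, -, x, -, x1, x2⟩ := (u2 _ u1).2 _ (mem_av.2 hl)
    refine x1 ?_
    rw [dcs, hc] at x2 ⊢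
    have := hg ((av u, (List.range u).map fun N => decide (M.D e N)), d x)
    rw [show ∀ (a : List (List Bool)) (b : List Bool) (c : In), true :: ((true :: (enc a ++ enc b)) ++
      enc c) = enc ((a, b), c) from fun _ _ _ => rfl, hg, enc_tt, d2,
      char hM v1 v2 (h := (List.range u).map fun N => decide (M.D e N)), hl]
    · intro N hN
      rw [hl] at hN
      simp [hN]
    · intro N h1 h2 hD
      have h3 := length_le_size (d x).1
      have h4 := size_pair (d x).1 (d x).2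
      have h5 : size (d x) ≤ m := x2
      simp only [Prod.mk.eta] at h4
      simpa using (u3 N (hl ▸ h1) (by omega)).1 hD

end Pool.Agent.H.MP_9e35a6_lc
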